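import Pool.Agent.H98.P2.Loc

/-!
# Module Alpha: the median height of the crossing (square root trick)

`alpha`: let `α ≤ n` be maximal with `Fl p (HE κ n α n) ≤ ε` (`α = 0` works because `ε ^ 2 ≤ ε`). If `α = n`, `HE κ n 0 n` fails with probability
`≤ ε ^ 2 ≤ ε`. If `α < n` then `ε < Fl p (HE κ n (α+1) n)`. The event `HE κ n 0 n` is the union of `HE κ n 0 α` and `HE κ n (α+1) n` (heights are
integers); by Harris for complements of increasing local events (`harris_loc`, index set of two elements, or the two event form)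
`Fl p (HE κ n 0 α) * Fl p (HE κ n (α+1) n) ≤ Fl p (HE κ n 0 n) ≤ ε ^ 2`, so `Fl p (HE κ n 0 α) ≤ ε`. (`Fl p E = 1 - P(E)` for measurable `E`; if `ε = 0`
then `Fl p (HE κ n (α+1) n) > 0` and the product is `≤ 0`.)
`a_pos`: if `HE κ n 0 0` holds then, as the crossing has at least one step and ends at `v = (n, 0)`, one of the elements of `v` used by the last
step is open: for site percolation `s(v, v)`, for bond percolation one of the at most four `s(v, v + stepVec s)`. The event that the four
elements `s(v, w)` (`w` neighbour of `v`), resp. the element `s(v, v)`, are all closed has probability `≥ (1 - p) ^ 4` (product measure on a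
finite set of at most four coordinates).
-/

set_option autoImplicit false

open MeasureTheory Filter Topology
open Pool.Agent.H17.IIC Pool.Agent.H41.QC Pool.Agent.H47.GM

namespace Pool.Agent.H98.P2

variable {κ : Kind} {p : unitInterval}

private lemma fl_eq {E : (El 2 → Bool) → Prop} (hE : Lo E) :
    Fl p E = 1 - (prodBern (El 2) p).real {ω | E ω} := by
  have h := measureReal_compl (μ := prodBern (El 2) p) hE.meas
  rw [probReal_univ] at h
  rw [← h]
  rfl

/-- all elements of a finite set are closed -/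
private lemma closed_prob (p : unitInterval) (E : Finset (El 2)) :
    (prodBern (El 2) p).real {ω | ∀ e ∈ E, ω e = false} = (1 - (p : ℝ)) ^ E.card := by
  have h1 : {ω : El 2 → Bool | ∀ e ∈ E, ω e = false} = Set.pi (E : Set (El 2)) (fun _ => {false}) := by
    ext ω; simp [Set.mem_pi]
  have h2 : bern p {false} = ENNReal.ofReal (1 - (p : ℝ)) := by
    simp [bern]
  rw [h1, measureReal_def, prodBern, Measure.infinitePi_pi (μ := fun _ : El 2 => bern p)
    (fun i _ => MeasurableSet.singleton _), Finset.prod_congr rfl (fun i _ => h2),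
    Finset.prod_const, ENNReal.toReal_pow, ENNReal.toReal_ofReal (by linarith [p.2.2])]

theorem alpha (κ : Kind) (p : unitInterval) {ε : ℝ} (hε : 0 ≤ ε) (hε1 : ε ≤ 1) (n : ℕ)
    (h : Fl p (HE κ n 0 n) ≤ ε ^ 2) :
    ∃ α : ℕ, α ≤ n ∧ Fl p (HE κ n α n) ≤ ε ∧ Fl p (HE κ n 0 α) ≤ ε := by
  classical
  have hε2 : ε ^ 2 ≤ ε := by nlinarith
  set P : ℕ → Prop := fun α => Fl p (HE κ n α n) ≤ ε with hP
  have hP0 : P 0 := h.trans hε2
  set α : ℕ := Nat.findGreatest P n with hα
  have hαn : α ≤ n := Nat.findGreatest_le n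
  have hPα : P α := Nat.findGreatest_spec (Nat.zero_le n) hP0
  refine ⟨α, hαn, hPα, ?_⟩
  rcases Nat.eq_or_lt_of_le hαn with he | hlt
  · rw [he]
    exact h.trans hε2
  · have hnot : ¬ P (α + 1) := Nat.findGreatest_is_greatest (Nat.lt_succ_self α) hlt
    have hgt : ε < Fl p (HE κ n (α + 1) n) := by
      have h1 : ¬ Fl p (HE κ n ((α + 1 : ℕ) : ℤ) n) ≤ ε := hnot
      push_cast at h1
      exact not_le.1 h1
    have hl1 : Lo (HE κ n 0 α) := lo_HG κ _ _ _ _ _ _
    have hl2 : Lo (HE κ n (α + 1) n) := lo_HG κ _ _ _ _ _ _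
    have hl3 : Lo (HE κ n 0 n) := lo_HG κ _ _ _ _ _ _
    have hH := harris_loc (d := 2) p (Finset.univ : Finset Bool)
      (fun b => if b = true then {ω | HE κ n 0 α ω} else {ω | HE κ n (α + 1) n ω})
      (by
        intro b _
        cases b
        · exact incr_HG κ _ _ _ _ _ _
        · exact incr_HG κ _ _ _ _ _ _)
      (by
        intro b _
        cases b
        · exact hl2
        · exact hl1)
    rw [Fintype.prod_bool] at hH
    simp only [if_true, Bool.false_eq_true, if_false] at hH
    rw [← fl_eq hl1, ← fl_eq hl2] at hH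
    have hsub : {ω : El 2 → Bool | HE κ n 0 n ω} ⊆ ⋃ v ∈ (Finset.univ : Finset Bool),
        (if v = true then {ω | HE κ n 0 α ω} else {ω | HE κ n (α + 1) n ω}) := by
      rintro ω ⟨u, v, hu, hv, hu0, hv0, hs, ht, hc⟩
      simp only [Finset.mem_univ, Set.iUnion_true, Set.mem_iUnion]
      by_cases hc' : v 1 ≤ α
      · exact ⟨true, ⟨u, v, hu, hv, hu0, hv0, hs, hc', hc⟩⟩
      · exact ⟨false, ⟨u, v, hu, hv, hu0, hv0, by push Not at hc'; exact hc', ht, hc⟩⟩
    have hmono := measureReal_mono (μ := prodBern (El 2) p) hsub (measure_ne_top _ _)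
    have h3 := fl_eq (p := p) hl3
    have hprod : Fl p (HE κ n 0 α) * Fl p (HE κ n (α + 1) n) ≤ ε ^ 2 := by linarith
    by_contra hcon
    push Not at hcon
    nlinarith

/-- the element of `v₀` used by the step `s` -/
private def clE (κ : Kind) (v₀ : V 2) (s : Step 2) : El 2 :=
  match κ with
  | .bond => s(v₀, v₀ + stepVec s)
  | .site => s(v₀, v₀)

theorem a_pos (κ : Kind) (p : unitInterval) {n : ℕ} (hn : 1 ≤ n) :
    (1 - (p : ℝ)) ^ 4 ≤ Fl p (HE κ n 0 0) := by
  classical
  have hp1 := p.2.2
  have hp0 := p.2.1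
  set v₀ : V 2 := ![(n : ℤ), 0] with hv₀
  set Λ : Finset (El 2) := (Finset.univ : Finset (Step 2)).image (clE κ v₀) with hΛ
  have hcard : Λ.card ≤ 4 := by
    refine Finset.card_image_le.trans ?_
    rw [Finset.card_univ, Fintype.card_prod, Fintype.card_fin, Fintype.card_bool]
  have h1 : (1 - (p : ℝ)) ^ 4 ≤ (prodBern (El 2) p).real {ω | ∀ e ∈ Λ, ω e = false} := by
    rw [closed_prob]
    exact pow_le_pow_of_le_one (by linarith) (by linarith) hcard
  refine h1.trans ?_
  unfold Fl
  refine measureReal_mono ?_ (measure_ne_top _ _)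
  rintro ω hω ⟨u, v, hu, hv, hu0, hv0, hs, ht, hc⟩
  have hv1 : v 1 = 0 := le_antisymm ht hs
  have hvv : v = v₀ := by
    funext i
    fin_cases i
    · exact hv0
    · exact hv1
  have hne : u ≠ v := by
    intro huv
    have h2 : u 0 = v 0 := by rw [huv]
    rw [hu0, hv0] at h2
    have h3 : (1 : ℤ) ≤ n := by exact_mod_cast hn
    linarith
  rcases Relation.ReflTransGen.cases_tail hc with h2 | ⟨c, -, hcs⟩
  · exact hne h2.symm
  · obtain ⟨⟨hlat, hop⟩, -, -⟩ := hcs.symm
    obtain ⟨s, hs'⟩ := hlat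
    rw [hvv] at hs' hop
    have hmem : clE κ v₀ s ∈ Λ := by
      rw [hΛ, Finset.mem_image]
      exact ⟨s, Finset.mem_univ _, rfl⟩
    have hcl := hω _ hmem
    cases κ
    · have hop' : ω s(v₀, c) = true := hop
      rw [hs'] at hop'
      have hcl' : ω s(v₀, v₀ + stepVec s) = false := hcl
      rw [hop'] at hcl'
      exact absurd hcl' (by simp)
    · have hop' : ω s(v₀, v₀) = true := hop.1
      have hcl' : ω s(v₀, v₀) = false := hcl
      rw [hop'] at hcl'
      exact absurd hcl' (by simp)

end Pool.Agent.H98.P2
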