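import Pool.Agent.H98.P2.Defs

/-!
# Module Bas: elementary facts on open connections inside a set
-/

set_option autoImplicit false

open MeasureTheory Filter Topology
open Pool.Agent.H17.IIC Pool.Agent.H41.QC Pool.Agent.H47.GM

namespace Pool.Agent.H98.P2

variable {κ : Kind} {ω ω' : El 2 → Bool} {D D' : Set (V 2)} {x y z : V 2}

lemma St.symm (h : St κ ω D x y) : St κ ω D y x := ⟨h.1.symm, h.2.2, h.2.1⟩

lemma St.lat (h : St κ ω D x y) : LatAdj x y := h.1.1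

lemma St.step (h : St κ ω D x y) (i : Fin 2) : |x i - y i| ≤ 1 := LatAdj.abs_le h.lat i

lemma Cn.refl (x : V 2) : Cn κ ω D x x := Relation.ReflTransGen.refl

lemma Cn.trans (h : Cn κ ω D x y) (h' : Cn κ ω D y z) : Cn κ ω D x z := Relation.ReflTransGen.trans h h'

lemma Cn.symm (h : Cn κ ω D x y) : Cn κ ω D y x := by
  unfold Cn at h ⊢
  induction h with
  | refl => exact Relation.ReflTransGen.refl
  | tail _ hs ih => exact Relation.ReflTransGen.head hs.symm ih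

lemma Cn.mono (h : Cn κ ω D x y) (hD : D ⊆ D') : Cn κ ω D' x y :=
  Relation.ReflTransGen.mono (fun _ _ hs => ⟨hs.1, hD hs.2.1, hD hs.2.2⟩) _ _ h

lemma Cn.mem (h : Cn κ ω D x y) : x = y ∨ (x ∈ D ∧ y ∈ D) := by
  unfold Cn at h
  rcases Relation.ReflTransGen.cases_head h with h1 | ⟨c, hc, _⟩
  · exact Or.inl h1
  · rcases Relation.ReflTransGen.cases_tail h with h2 | ⟨c', _, hc'⟩
    · exact Or.inl h2.symm
    · exact Or.inr ⟨hc.2.1, hc'.2.2⟩

lemma Cn.mem_right (h : Cn κ ω D x y) (hx : x ∈ D) : y ∈ D := by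
  rcases h.mem with h1 | h1
  · rw [← h1]; exact hx
  · exact h1.2

lemma Cn.mem_left (h : Cn κ ω D x y) (hy : y ∈ D) : x ∈ D := h.symm.mem_right hy

/-- the path stays in the part of `D` which is connected to its starting point -/
lemma Cn.cluster (h : Cn κ ω D x y) : Cn κ ω {z | z ∈ D ∧ Cn κ ω D x z} x y := by
  have h0 := h
  unfold Cn at h
  induction h with
  | refl => exact Cn.refl x
  | @tail b c hb hs ih =>
    have hb' : Cn κ ω D x b := hb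
    exact (ih hb').trans (Relation.ReflTransGen.single ⟨hs.1, ⟨hs.2.1, hb'⟩, ⟨hs.2.2, h0⟩⟩)

lemma mem_Rf {a b c e : ℤ} {z : V 2} : z ∈ Rf a b c e ↔ z ∈ Rc a b c e := by
  unfold Rf Rc
  rw [Fintype.mem_piFinset, Fin.forall_fin_two]
  simp

lemma Rc_box (n : ℕ) : Rc (-n) n (-n) n = (Bx (0 : V 2) n : Set (V 2)) := by
  ext z
  rw [Finset.mem_coe, mem_Bx, Fin.forall_fin_two]
  unfold Rc
  simp only [Set.mem_ofPred_eq, Pi.zero_apply, sub_zero, abs_le]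

lemma Rc_mono {a b c e a' b' c' e' : ℤ} (h1 : a' ≤ a) (h2 : b ≤ b') (h3 : c' ≤ c) (h4 : e ≤ e') :
    Rc a b c e ⊆ Rc a' b' c' e' := by
  rintro z ⟨⟨z1, z2⟩, z3, z4⟩
  exact ⟨⟨h1.trans z1, z2.trans h2⟩, h3.trans z3, z4.trans h4⟩

/-- transport by a lattice automorphism -/
lemma cn_tr {φ : V 2 ≃ V 2} (hφ : IsAut φ) (ω : El 2 → Bool) (D : Set (V 2)) (x y : V 2) :
    Cn κ (tr φ ω) D x y ↔ Cn κ ω (φ '' D) (φ x) (φ y) := by
  have hadj : ∀ a b, (Gr κ (tr φ ω)).Adj a b ↔ (Gr κ ω).Adj (φ a) (φ b) := by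
    intro a b
    constructor
    · rintro ⟨h1, h2⟩
      refine ⟨(hφ.adj a b).2 h1, ?_⟩
      cases κ <;> exact h2
    · rintro ⟨h1, h2⟩
      refine ⟨(hφ.adj a b).1 h1, ?_⟩
      cases κ <;> exact h2
  constructor
  · intro h
    refine Relation.ReflTransGen.lift φ ?_ _ _ h
    rintro u v ⟨h1, h2, h3⟩
    exact ⟨(hadj u v).1 h1, ⟨u, h2, rfl⟩, ⟨v, h3, rfl⟩⟩
  · intro h
    have h' : Relation.ReflTransGen (St κ (tr φ ω) D) (φ.symm (φ x)) (φ.symm (φ y)) := by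
      refine Relation.ReflTransGen.lift φ.symm ?_ _ _ h
      rintro u v ⟨h1, ⟨w, hw, rfl⟩, ⟨w', hw', rfl⟩⟩
      refine ⟨?_, ?_, ?_⟩
      · rw [Equiv.symm_apply_apply, Equiv.symm_apply_apply, hadj]; exact h1
      · rw [Equiv.symm_apply_apply]; exact hw
      · rw [Equiv.symm_apply_apply]; exact hw'
    rw [Equiv.symm_apply_apply, Equiv.symm_apply_apply] at h'
    exact h'

/-- only the elements of the rectangle matter -/
lemma cn_congr {a b c e : ℤ} (h : ∀ l ∈ Ef a b c e, ω l = ω' l) (x y : V 2) :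
    Cn κ ω (Rc a b c e) x y ↔ Cn κ ω' (Rc a b c e) x y := by
  classical
  have key : ∀ u v : V 2, u ∈ Rc a b c e → v ∈ Rc a b c e → ω s(u, v) = ω' s(u, v) := by
    intro u v hu hv
    apply h
    unfold Ef
    rw [Finset.mem_image]
    exact ⟨(u, v), by rw [Finset.mem_product]; exact ⟨mem_Rf.2 hu, mem_Rf.2 hv⟩, rfl⟩
  have hS : St κ ω (Rc a b c e) = St κ ω' (Rc a b c e) := by
    funext u v
    apply propext
    unfold St
    constructor
    · rintro ⟨⟨h1, h2⟩, hu, hv⟩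
      refine ⟨⟨h1, ?_⟩, hu, hv⟩
      cases κ
      · rw [← key u v hu hv]; exact h2
      · exact ⟨by rw [← key u u hu hu]; exact h2.1, by rw [← key v v hv hv]; exact h2.2⟩
    · rintro ⟨⟨h1, h2⟩, hu, hv⟩
      refine ⟨⟨h1, ?_⟩, hu, hv⟩
      cases κ
      · rw [key u v hu hv]; exact h2
      · exact ⟨by rw [key u u hu hu]; exact h2.1, by rw [key v v hv hv]; exact h2.2⟩
  unfold Cn
  rw [hS]

lemma Cn.incr (hω : ∀ e, ω e = true → ω' e = true) (h : Cn κ ω D x y) : Cn κ ω' D x y := by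
  refine Relation.ReflTransGen.mono (fun u v hs => ?_) _ _ h
  obtain ⟨⟨h1, h2⟩, hu, hv⟩ := hs
  refine ⟨⟨h1, ?_⟩, hu, hv⟩
  cases κ
  · exact hω _ h2
  · exact ⟨hω _ h2.1, hω _ h2.2⟩

/-! ### failure probabilities -/

variable {p : unitInterval} {E E₁ E₂ : (El 2 → Bool) → Prop}

lemma fl_nonneg (p : unitInterval) (E : (El 2 → Bool) → Prop) : 0 ≤ Fl p E := measureReal_nonneg

lemma fl_le_one (p : unitInterval) (E : (El 2 → Bool) → Prop) : Fl p E ≤ 1 := by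
  unfold Fl
  exact measureReal_le_one

lemma fl_mono (h : ∀ ω, E₁ ω → E ω) : Fl p E ≤ Fl p E₁ := by
  unfold Fl
  exact measureReal_mono (fun ω hω h1 => hω (h ω h1)) (measure_ne_top _ _)

lemma fl_two (h : ∀ ω, E₁ ω → E₂ ω → E ω) : Fl p E ≤ Fl p E₁ + Fl p E₂ := by
  unfold Fl
  have h1 : {ω | ¬ E ω} ⊆ {ω | ¬ E₁ ω} ∪ {ω | ¬ E₂ ω} := by
    intro ω hω
    by_contra hc
    simp only [Set.mem_union, Set.mem_ofPred_eq, not_or, not_not] at hc
    exact hω (h ω hc.1 hc.2)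
  exact (measureReal_mono h1 (measure_ne_top _ _)).trans (measureReal_union_le _ _)

lemma Lo.meas (h : Lo E) : MeasurableSet {ω | E ω} := by
  obtain ⟨Λ, hΛ⟩ := h
  exact hΛ.measurableSet

lemma Lo.not (h : Lo E) : Lo fun ω => ¬ E ω := by
  obtain ⟨Λ, hΛ⟩ := h
  exact ⟨Λ, fun ω ω' hω => not_congr (hΛ ω ω' hω)⟩

lemma Lo.and (h₁ : Lo E₁) (h₂ : Lo E₂) : Lo fun ω => E₁ ω ∧ E₂ ω := by
  classical
  obtain ⟨Λ₁, hΛ₁⟩ := h₁
  obtain ⟨Λ₂, hΛ₂⟩ := h₂
  refine ⟨Λ₁ ∪ Λ₂, fun ω ω' hω => and_congr (hΛ₁ ω ω' fun i hi => hω i ?_) (hΛ₂ ω ω' fun i hi => hω i ?_)⟩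
  · rw [Finset.coe_union]; exact Or.inl hi
  · rw [Finset.coe_union]; exact Or.inr hi

lemma fl_tr (φ : V 2 ≃ V 2) (hE : Lo E) : Fl p (fun ω => E (tr φ ω)) = Fl p E := by
  unfold Fl
  have hm : Measurable (tr φ : (El 2 → Bool) → (El 2 → Bool)) :=
    measurable_pi_lambda _ fun e => measurable_pi_apply _
  have h := tr_law φ p
  conv_rhs => rw [← h]
  rw [map_measureReal_apply hm (Lo.meas hE.not)]
  rfl

end Pool.Agent.H98.P2
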