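import Pool.Agent.H98.P2.Bas

/-!
# Module Cont: continuity of the probability of a local event in `p`

`cont_left`: let `Λ` be the finite set of elements on which `E` depends. The law of the restriction to `Λ` is the product measure on a finite
set, so `Fl p E` is a finite sum over `ξ : Λ → Bool` of `∏ (if ξ then p else 1 - p)`, continuous in `p`; as `p > 0` there are `p' < p`
arbitrarily near `p`. Or by coupling: for `p' < p` use `map_or` (H41/QC/Coupling) with `q = (p - p')/(1 - p')`: the configurations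
`x.1` (law `p'`) and `x.1 || x.2` (law `p`) agree on `Λ` unless some `x.2 e`, `e ∈ Λ`, is open, which has probability `≤ |Λ| q`, so
`Fl p' E ≤ Fl p E + |Λ| q`, and `q → 0` as `p' → p` if `p < 1`; for `p = 1` take `Fl p' E ≤` probability that some element of `Λ` is closed `≤ |Λ| (1 - p')`.
`one`: at `p = 1` almost surely all elements of the (countable) set `El 2` are open, then every rectangle with `0 ≤ n` is crossed
along the bottom side.
-/

set_option autoImplicit false

open MeasureTheory Filter Topology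
open Pool.Agent.H17.IIC Pool.Agent.H41.QC Pool.Agent.H47.GM

namespace Pool.Agent.H98.P2

variable {κ : Kind} {p : unitInterval}

private lemma measurable_and {ι : Type*} :
    Measurable (fun (x : (ι → Bool) × (ι → Bool)) (e : ι) => x.1 e && x.2 e) := by
  rw [measurable_pi_iff]
  intro i
  have h1 : Measurable (fun b : Bool × Bool => b.1 && b.2) := Measurable.of_discrete
  have h2 : Measurable (fun x : (ι → Bool) × (ι → Bool) => (x.1 i, x.2 i)) := by fun_prop
  exact h1.comp h2

private theorem map_and {ι : Type*} (p₁ q p₂ : unitInterval) (h : (p₂ : ℝ) = p₁ * q) :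
    ((prodBern ι p₁).prod (prodBern ι q)).map (fun x e => x.1 e && x.2 e) = prodBern ι p₂ := by
  conv_rhs => rw [prodBern]
  apply Measure.eq_infinitePi
  intro s t ht
  have hpi : MeasurableSet (Set.pi (s : Set ι) t) :=
    MeasurableSet.pi s.countable_toSet (fun i _ => ht i)
  rw [Measure.map_apply measurable_and hpi,
    Measure.prod_apply (measurable_and hpi)]
  have hsec : ∀ ω : ι → Bool, (prodBern ι q) (Prod.mk ω ⁻¹'
      ((fun (x : (ι → Bool) × (ι → Bool)) (e : ι) => x.1 e && x.2 e) ⁻¹' (Set.pi (s : Set ι) t)))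
      = ∏ i ∈ s, bern q {b | (ω i && b) ∈ t i} := by
    intro ω
    have : (Prod.mk ω ⁻¹'
      ((fun (x : (ι → Bool) × (ι → Bool)) (e : ι) => x.1 e && x.2 e) ⁻¹' (Set.pi (s : Set ι) t)))
      = Set.pi (s : Set ι) (fun i => {b | (ω i && b) ∈ t i}) := by
      ext σ
      simp
    rw [this, prodBern, Measure.infinitePi_pi (μ := fun _ : ι => bern q)]
    intro i _
    exact MeasurableSet.of_discrete
  rw [lintegral_congr hsec]
  have hX : ProbabilityTheory.iIndepFun
      (fun i (ω : ι → Bool) => bern q {b | (ω i && b) ∈ t i}) (prodBern ι p₁) := by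
    unfold prodBern
    exact ProbabilityTheory.iIndepFun_infinitePi
      (X := fun i (a : Bool) => bern q {b | (a && b) ∈ t i}) (fun i => measurable_from_top)
  rw [ProbabilityTheory.lintegral_prod_eq_prod_lintegral_of_indepFun s
    (fun i (ω : ι → Bool) => bern q {b | (ω i && b) ∈ t i}) hX ?_]
  swap
  · intro i
    have h1 : Measurable (fun a : Bool => bern q {b | (a && b) ∈ t i}) := measurable_from_top
    exact h1.comp (measurable_pi_apply i)
  apply Finset.prod_congr rfl
  intro i _
  have h2 : ∫⁻ ω, bern q {b | (ω i && b) ∈ t i} ∂(prodBern ι p₁)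
      = ∫⁻ a, bern q {b | (a && b) ∈ t i} ∂(bern p₁) := by
    unfold prodBern
    exact (measurePreserving_eval_infinitePi (fun _ : ι => bern p₁) i).lintegral_comp
      (f := fun a : Bool => bern q {b | (a && b) ∈ t i}) measurable_from_top
  rw [h2, lintegral_bern]
  classical
  rw [coupling_bern_apply, coupling_bern_apply, coupling_bern_apply p₂]
  have h1 := p₁.2
  have h3 := q.2
  have e1 : ENNReal.ofReal (p₂ : ℝ) = ENNReal.ofReal (p₁ : ℝ) * ENNReal.ofReal (q : ℝ) := by
    rw [← ENNReal.ofReal_mul h1.1, h]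
  have e2 : ENNReal.ofReal (1 - (p₂ : ℝ)) =
      ENNReal.ofReal (p₁ : ℝ) * ENNReal.ofReal (1 - (q : ℝ)) + ENNReal.ofReal (1 - (p₁ : ℝ)) := by
    rw [← ENNReal.ofReal_mul h1.1, ← ENNReal.ofReal_add
      (mul_nonneg h1.1 (by linarith [h3.2])) (by linarith [h1.2])]
    congr 1
    linarith
  have e3 : ENNReal.ofReal (q : ℝ) + ENNReal.ofReal (1 - (q : ℝ)) = 1 := by
    rw [← ENNReal.ofReal_add h3.1 (by linarith [h3.2])]
    simp
  rw [e1, e2]
  simp only [Bool.true_and, Bool.false_and, Set.mem_ofPred_eq]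
  by_cases ht1 : true ∈ t i <;> by_cases ht0 : false ∈ t i <;> simp only [ht1, ht0, if_true,
    if_false, mul_one, mul_zero, add_zero, zero_add]
  · rw [e3, mul_one, mul_one, ← add_assoc, ← mul_add, e3, mul_one]
  · rw [e3, mul_one]

theorem cont_left {E : (El 2 → Bool) → Prop} (hE : Lo E) (p : unitInterval) (hp : 0 < (p : ℝ)) {δ : ℝ}
    (h : Fl p E < δ) : ∃ p' : unitInterval, (p' : ℝ) < p ∧ Fl p' E < δ := by
  have hnot := hE.not
  have hmeas := Lo.meas hnot
  obtain ⟨Λ, hΛ⟩ := hE
  -- the parameter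
  set η := δ - Fl p E with hη
  have hη0 : 0 < η := by rw [hη]; linarith
  obtain ⟨t, ht0, ht1, htη⟩ : ∃ t : ℝ, 0 < t ∧ t ≤ 1 ∧ Λ.card * t < η := by
    refine ⟨min 1 (η / (Λ.card + 1)), ?_, min_le_left _ _, ?_⟩
    · exact lt_min one_pos (by positivity)
    · have h1 : (Λ.card : ℝ) * min 1 (η / (Λ.card + 1)) ≤ Λ.card * (η / (Λ.card + 1)) :=
        mul_le_mul_of_nonneg_left (min_le_right _ _) (by positivity)
      refine h1.trans_lt ?_
      rw [mul_div_assoc', div_lt_iff₀ (by positivity)]
      nlinarith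
  let r : unitInterval := ⟨1 - t, by constructor <;> linarith⟩
  have hr : (r : ℝ) = 1 - t := rfl
  let p' : unitInterval := ⟨p * r, mul_nonneg p.2.1 r.2.1, mul_le_one₀ p.2.2 r.2.1 r.2.2⟩
  have hp' : (p' : ℝ) = p * r := rfl
  refine ⟨p', ?_, ?_⟩
  · rw [hp', hr]
    nlinarith
  · have hmap := map_and (ι := El 2) p r p' hp'
    set μ := (prodBern (El 2) p).prod (prodBern (El 2) r) with hμ
    have h1 : Fl p' E = μ.real {x | ¬ E (fun e => x.1 e && x.2 e)} := by
      unfold Fl
      rw [← hmap, map_measureReal_apply measurable_and hmeas]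
      rfl
    have hO : MeasurableSet {σ : El 2 → Bool | ∀ e ∈ Λ, σ e = true} := by
      have : {σ : El 2 → Bool | ∀ e ∈ Λ, σ e = true} = Set.pi (Λ : Set (El 2)) (fun _ => {true}) := by
        ext σ
        simp
      rw [this]
      exact MeasurableSet.pi Λ.countable_toSet fun i _ => MeasurableSet.of_discrete
    have hsub : {x : (El 2 → Bool) × (El 2 → Bool) | ¬ E (fun e => x.1 e && x.2 e)} ⊆
        ({ω | ¬ E ω} ×ˢ Set.univ) ∪ (Set.univ ×ˢ {σ | ∀ e ∈ Λ, σ e = true}ᶜ) := by
      rintro ⟨x, y⟩ hx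
      by_cases hy : ∀ e ∈ Λ, y e = true
      · left
        refine ⟨?_, trivial⟩
        have h2 := hΛ (fun e => x e && y e) x fun i hi => by
          rw [hy i (Finset.mem_coe.mp hi), Bool.and_true]
        exact fun hE' => hx (h2.2 hE')
      · exact Or.inr ⟨trivial, hy⟩
    have h2 : μ.real (({ω | ¬ E ω} : Set (El 2 → Bool)) ×ˢ Set.univ) = Fl p E := by
      unfold Fl
      rw [hμ, measureReal_prod_prod]
      simp
    have h3 : μ.real ((Set.univ : Set (El 2 → Bool)) ×ˢ {σ | ∀ e ∈ Λ, σ e = true}ᶜ) =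
        1 - (r : ℝ) ^ Λ.card := by
      rw [hμ, measureReal_prod_prod, probReal_compl_eq_one_sub hO, prob_all_open]
      simp
    have h4 : 1 - (Λ.card : ℝ) * t ≤ (r : ℝ) ^ Λ.card := by
      have := one_add_mul_le_pow (a := -t) (by linarith) Λ.card
      rw [hr, sub_eq_add_neg, sub_eq_add_neg]
      linarith
    calc Fl p' E = μ.real {x | ¬ E (fun e => x.1 e && x.2 e)} := h1
      _ ≤ μ.real (({ω | ¬ E ω} ×ˢ Set.univ) ∪ (Set.univ ×ˢ {σ | ∀ e ∈ Λ, σ e = true}ᶜ)) :=
          measureReal_mono hsub (measure_ne_top _ _)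
      _ ≤ Fl p E + (1 - (r : ℝ) ^ Λ.card) := by
          rw [← h2, ← h3]
          exact measureReal_union_le _ _
      _ < δ := by
          rw [hη] at htη
          linarith

theorem one (κ : Kind) (n : ℕ) (p : unitInterval) (hp : (p : ℝ) = 1) : ff κ p n = 0 := by
  have hopen : ∀ᵐ ω ∂(prodBern (El 2) p), ∀ e : El 2, ω e = true := by
    rw [ae_all_iff]
    intro e
    have h1 := prob_all_open p ({e} : Finset (El 2))
    simp only [Finset.mem_singleton, forall_eq, Finset.card_singleton, pow_one, hp] at h1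
    have hO : MeasurableSet {σ : El 2 → Bool | σ e = true} :=
      measurableSet_eq_fun (measurable_pi_apply e) measurable_const
    have h2 := probReal_compl_eq_one_sub (μ := prodBern (El 2) p) hO
    rw [h1, sub_self, measureReal_eq_zero_iff] at h2
    exact h2
  have hHC : ∀ ω : El 2 → Bool, (∀ e, ω e = true) → HC κ 0 (4 * n) 0 n ω := by
    intro ω hω
    have hmem : ∀ k : ℕ, k ≤ 4 * n → (![(k : ℤ), 0] : V 2) ∈ Rc 0 (4 * n) 0 n := by
      intro k hk
      refine ⟨⟨?_, ?_⟩, ?_, ?_⟩
      · simp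
      · simp only [Matrix.cons_val_zero]
        exact_mod_cast hk
      · simp
      · simp
    have hpath : ∀ k : ℕ, k ≤ 4 * n → Cn κ ω (Rc 0 (4 * n) 0 n) ![0, 0] ![(k : ℤ), 0] := by
      intro k
      induction k with
      | zero => intro _; exact Cn.refl _
      | succ k ih =>
        intro hk
        refine (ih (by omega)).trans (Relation.ReflTransGen.single ⟨⟨?_, ?_⟩, hmem k (by omega),
          hmem (k + 1) hk⟩)
        · refine bd_latAdj_iff.mpr ⟨0, Or.inl ?_⟩
          ext i
          fin_cases i <;> simp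
        · cases κ
          · exact hω _
          · exact ⟨hω _, hω _⟩
    refine ⟨![0, 0], ![((4 * n : ℕ) : ℤ), 0], ?_, ?_, rfl, ?_, ?_⟩
    · simpa using hmem 0 (by omega)
    · exact hmem _ le_rfl
    · simp
    · exact hpath _ le_rfl
  have hz : (prodBern (El 2) p) {ω | ¬ HC κ 0 (4 * n) 0 n ω} = 0 :=
    measure_mono_null (fun ω hω hc => hω (hHC ω hc)) hopen
  change (prodBern (El 2) p).real {ω | ¬ HC κ 0 (4 * n) 0 n ω} = 0
  rw [measureReal_eq_zero_iff]
  exact hz

end Pool.Agent.H98.P2
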