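import Pool.Agent.H98.P2.Rec
import Pool.Agent.H47.GM.SeedInf

/-!
# Module Perc: long crossings with probability near one imply percolation

`n_0 = n`, `n_(j+1) = 2 n_j + 1`, `f_j = ff κ p n_j`; `25 f_(j+1) ≤ (25 f_j)^2`, `25 f_0 ≤ 1/2`, so `25 f_j ≤ 2^(-j-1)` and `Σ f_j ≤ 1/25 < 1`. Let `E_j` be the
horizontal crossing of `[0,4n_j] × [0,n_j]` for even `j` and the vertical crossing of `[0,n_j] × [0,4n_j]` for odd `j` (`fl_VC`). With positive probability all
`E_j` hold (`measure_iUnion_le` for the complements; or: all finite intersections have probability `≥ 1 - 1/25` and the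
intersection is decreasing). On this event consecutive crossings meet (`meet_HV`: for even `j` the horizontal crossing of `[0,4n_j] × [0,n_j]`
and the vertical crossing of `[0,n_(j+1)] × [0,4n_(j+1)]`, `n_(j+1) ≤ 4 n_j`; for odd `j` symmetrically), so the starting point `u ∈ Rc 0 (4n) 0 n` of the first
crossing is connected to points at distance `≥ 4 n_j` for all `j`: its cluster in `Gr κ ω` is infinite. So with positive probability one of the
finitely many vertices of the rectangle has an infinite cluster; by translation invariance (`SeedInf_shift`, `tr_law`, as in `seed_inf`) `theta κ 2 p > 0`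
(if `theta κ 2 p = 0` then every vertex has almost surely a finite cluster).
-/

set_option autoImplicit false

open MeasureTheory Filter Topology
open Pool.Agent.H17.IIC Pool.Agent.H41.QC Pool.Agent.H47.GM

namespace Pool.Agent.H98.P2

variable {κ : Kind} {p : unitInterval}

/-- the scales `n_j` -/
private def aa (n : ℕ) : ℕ → ℕ
  | 0 => n
  | j + 1 => 2 * aa n j + 1

private lemma aa_succ (n j : ℕ) : aa n (j + 1) = 2 * aa n j + 1 := rfl

private lemma aa_ge (n j : ℕ) : n ≤ aa n j := by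
  induction j with
  | zero => exact le_rfl
  | succ j ih => rw [aa_succ]; omega

private lemma aa_strictMono (n : ℕ) : StrictMono (aa n) :=
  strictMono_nat_of_lt_succ fun j => by rw [aa_succ]; omega

private lemma ff_le (κ : Kind) (p : unitInterval) {n : ℕ} (hn : 4 ≤ n) (h : 50 * ff κ p n ≤ 1) (j : ℕ) :
    ff κ p (aa n j) ≤ (1 / 25 : ℝ) / 2 / 2 ^ j := by
  induction j with
  | zero =>
    show ff κ p n ≤ _
    norm_num
    linarith
  | succ j ih =>
    rw [aa_succ]
    refine (rec_ff κ p (hn.trans (aa_ge n j))).trans ?_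
    have h0 : 0 ≤ ff κ p (aa n j) := fl_nonneg _ _
    set x := ff κ p (aa n j) with hx
    have ht : (0 : ℝ) < 1 / 2 ^ j := by positivity
    have ht1 : (1 : ℝ) / 2 ^ j ≤ 1 := by
      rw [div_le_one (by positivity)]
      exact one_le_pow₀ (by norm_num)
    have e1 : (1 / 25 : ℝ) / 2 / 2 ^ j = (1 / 2 ^ j) / 50 := by ring
    have e2 : (1 / 25 : ℝ) / 2 / 2 ^ (j + 1) = (1 / 2 ^ j) / 100 := by
      rw [pow_succ]; field_simp; norm_num
    rw [e1] at ih
    rw [e2]
    set t : ℝ := 1 / 2 ^ j with htd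
    have h1 : x ^ 2 ≤ (t / 50) ^ 2 := pow_le_pow_left₀ h0 ih 2
    nlinarith

/-- the crossing at scale `j` from `u` to `v` -/
private def CrH (κ : Kind) (ω : El 2 → Bool) (m : ℕ) (u v : V 2) : Prop :=
  u ∈ Rc 0 (4 * (m : ℤ)) 0 m ∧ v ∈ Rc 0 (4 * (m : ℤ)) 0 m ∧ u 0 = 0 ∧ v 0 = 4 * (m : ℤ) ∧
    Cn κ ω (Rc 0 (4 * (m : ℤ)) 0 m) u v

private def CrV (κ : Kind) (ω : El 2 → Bool) (m : ℕ) (u v : V 2) : Prop :=
  u ∈ Rc 0 (m : ℤ) 0 (4 * (m : ℤ)) ∧ v ∈ Rc 0 (m : ℤ) 0 (4 * (m : ℤ)) ∧ u 1 = 0 ∧ v 1 = 4 * (m : ℤ) ∧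
    Cn κ ω (Rc 0 (m : ℤ) 0 (4 * (m : ℤ))) u v

private lemma cn_reach {κ : Kind} {ω : El 2 → Bool} {D : Set (V 2)} {x y : V 2} (h : Cn κ ω D x y) :
    (Gr κ ω).Reachable x y := by
  unfold Cn at h
  induction h with
  | refl => exact SimpleGraph.Reachable.refl _
  | tail _ hs ih => exact ih.trans hs.1.reachable

private lemma link {κ : Kind} {ω : El 2 → Bool} {m : ℕ} (hm : 1 ≤ m) {u v u' v' : V 2}
    (h : CrH κ ω m u v ∧ CrV κ ω (2 * m + 1) u' v' ∨ CrV κ ω m u v ∧ CrH κ ω (2 * m + 1) u' v') :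
    (Gr κ ω).Reachable u u' := by
  have hm' : (1 : ℤ) ≤ m := by exact_mod_cast hm
  rcases h with ⟨⟨h1, h2, h3, h4, h5⟩, ⟨k1, k2, k3, k4, k5⟩⟩ | ⟨⟨h1, h2, h3, h4, h5⟩, ⟨k1, k2, k3, k4, k5⟩⟩
  · refine cn_reach (meet_HV (a := 0) (b := 4 * (m : ℤ)) (c := 0) (e := m) (a' := 0)
      (b' := ((2 * m + 1 : ℕ) : ℤ)) (c' := 0) (e' := 4 * ((2 * m + 1 : ℕ) : ℤ)) le_rfl ?_ le_rfl ?_
      h1 h3 h4 h5 k1 k3 k4 k5)
    · push_cast; linarith
    · push_cast; linarith
  · refine (cn_reach (meet_HV (a := 0) (b := 4 * ((2 * m + 1 : ℕ) : ℤ)) (c := 0) (e := ((2 * m + 1 : ℕ) : ℤ)) (a' := 0)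
      (b' := (m : ℤ)) (c' := 0) (e' := 4 * (m : ℤ)) le_rfl ?_ le_rfl ?_
      k1 k3 k4 k5 h1 h3 h4 h5)).symm
    · push_cast; linarith
    · push_cast; linarith

/-- the crossing event at scale `j` -/
private def EE (κ : Kind) (n j : ℕ) (ω : El 2 → Bool) : Prop :=
  if Even j then HC κ 0 (4 * (aa n j : ℤ)) 0 (aa n j) ω else VC κ 0 (aa n j) 0 (4 * (aa n j : ℤ)) ω

private lemma fl_EE (κ : Kind) (p : unitInterval) (n j : ℕ) : Fl p (EE κ n j) = ff κ p (aa n j) := by
  unfold ff
  by_cases h : Even j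
  · have : EE κ n j = HC κ 0 (4 * (aa n j : ℤ)) 0 (aa n j) := by
      funext ω
      unfold EE
      rw [if_pos h]
    rw [this]
  · have : EE κ n j = VC κ 0 (aa n j) 0 (4 * (aa n j : ℤ)) := by
      funext ω
      unfold EE
      rw [if_neg h]
    rw [this, fl_VC]

private lemma infinite_of_EE {κ : Kind} {ω : El 2 → Bool} {n : ℕ} (hn : 4 ≤ n) (h : ∀ j, EE κ n j ω) :
    ∃ u : V 2, {y | (Gr κ ω).Reachable u y}.Infinite := by
  have H : ∀ j, ∃ u v : V 2, (Even j → CrH κ ω (aa n j) u v) ∧ (¬ Even j → CrV κ ω (aa n j) u v) := by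
    intro j
    have hj := h j
    unfold EE at hj
    by_cases he : Even j
    · rw [if_pos he] at hj
      obtain ⟨u, v, hu, hv, h1, h2, h3⟩ := hj
      exact ⟨u, v, fun _ => ⟨hu, hv, h1, h2, h3⟩, fun hc => absurd he hc⟩
    · rw [if_neg he] at hj
      obtain ⟨u, v, hu, hv, h1, h2, h3⟩ := hj
      exact ⟨u, v, fun hc => absurd hc he, fun _ => ⟨hu, hv, h1, h2, h3⟩⟩
  choose u v hE hO using H
  have hstep : ∀ j, (Gr κ ω).Reachable (u j) (u (j + 1)) := by
    intro j
    apply link (m := aa n j) (v := v j) (v' := v (j + 1)) (by have := aa_ge n j; omega)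
    by_cases he : Even j
    · left
      refine ⟨hE j he, ?_⟩
      have : ¬ Even (j + 1) := by rw [Nat.even_add_one]; exact not_not.mpr he
      exact hO (j + 1) this
    · right
      refine ⟨hO j he, ?_⟩
      have : Even (j + 1) := by rw [Nat.even_add_one]; exact he
      exact hE (j + 1) this
  have hall : ∀ j, (Gr κ ω).Reachable (u 0) (u j) := by
    intro j
    induction j with
    | zero => exact SimpleGraph.Reachable.refl _
    | succ j ih => exact ih.trans (hstep j)
  have huv : ∀ j, (Gr κ ω).Reachable (u j) (v j) := by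
    intro j
    by_cases he : Even j
    · exact cn_reach (hE j he).2.2.2.2
    · exact cn_reach (hO j he).2.2.2.2
  have hmax : ∀ j, max (v j 0) (v j 1) = 4 * (aa n j : ℤ) := by
    intro j
    have ha : (0 : ℤ) ≤ aa n j := Int.natCast_nonneg _
    by_cases he : Even j
    · obtain ⟨_, ⟨_, _, h3⟩, _, h4, _⟩ := hE j he
      rw [h4, max_eq_left]
      linarith
    · obtain ⟨_, ⟨⟨_, h3⟩, _⟩, _, h4, _⟩ := hO j he
      rw [h4, max_eq_right]
      linarith
  refine ⟨u 0, Set.infinite_of_injective_forall_mem (f := v) ?_ (fun j => (hall j).trans (huv j))⟩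
  intro j k hjk
  have h1 := hmax j
  rw [hjk, hmax k] at h1
  apply (aa_strictMono n).injective
  have h2 : (aa n k : ℤ) = aa n j := by linarith
  exact_mod_cast h2.symm

private lemma meas_inf (κ : Kind) : MeasurableSet {ω : El 2 → Bool | {y : V 2 | (Gr κ ω).Reachable 0 y}.Infinite} := by
  have e : {ω : El 2 → Bool | {y : V 2 | (Gr κ ω).Reachable 0 y}.Infinite} = ⋂ n, SeedInf_A κ 2 n := by
    ext ω
    constructor
    · intro h
      exact SeedInf_inf κ h
    · intro h
      exact SeedInf_inf' κ (fun n => Set.mem_iInter.1 h n)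
  rw [e]
  apply MeasurableSet.iInter
  intro n
  obtain ⟨Λ, hΛ⟩ := SeedInf_dep κ 2 n
  exact hΛ.measurableSet

private lemma shift_inf (κ : Kind) (v : V 2) {ω : El 2 → Bool} (h : {y : V 2 | (Gr κ ω).Reachable v y}.Infinite) :
    {y : V 2 | (Gr κ (tr (Equiv.addRight v) ω)).Reachable 0 y}.Infinite := by
  have hinj : Function.Injective (fun x : V 2 => x - v) := fun a b hab => by simpa using hab
  refine (h.image (f := fun x : V 2 => x - v) hinj.injOn).mono ?_
  rintro _ ⟨y, hy, rfl⟩
  have gen : ∀ a b : V 2, (Gr κ ω).Reachable a b →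
      (Gr κ (tr (Equiv.addRight v) ω)).Reachable (a - v) (b - v) := by
    rintro a b ⟨w⟩
    induction w with
    | nil => exact SimpleGraph.Reachable.refl _
    | @cons a b c hadj p ih =>
      have h3 : (Gr κ (tr (Equiv.addRight v) ω)).Adj (a - v) (b - v) := by
        obtain ⟨⟨s, hs⟩, ho⟩ := hadj
        refine ⟨⟨s, by rw [hs]; abel⟩, ?_⟩
        cases κ with
        | bond =>
          show ω s((a - v) + v, (b - v) + v) = true
          rw [sub_add_cancel, sub_add_cancel]; exact ho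
        | site =>
          refine ⟨?_, ?_⟩
          · show ω s((a - v) + v, (a - v) + v) = true
            rw [sub_add_cancel]; exact ho.1
          · show ω s((b - v) + v, (b - v) + v) = true
            rw [sub_add_cancel]; exact ho.2
      exact h3.reachable.trans ih
  have h2 := gen v y hy
  rwa [sub_self] at h2

theorem perc (κ : Kind) (p : unitInterval) {n : ℕ} (hn : 4 ≤ n) (h : 50 * ff κ p n ≤ 1) :
    0 < theta κ 2 p := by
  by_contra hθ
  have hθ0 : theta κ 2 p = 0 := le_antisymm (not_lt.mp hθ) measureReal_nonneg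
  have h0 : (prodBern (El 2) p) {ω | {y : V 2 | (Gr κ ω).Reachable 0 y}.Infinite} = 0 := by
    unfold theta at hθ0
    exact (measureReal_eq_zero_iff).1 hθ0
  have hv : ∀ v : V 2, (prodBern (El 2) p) {ω | {y : V 2 | (Gr κ ω).Reachable v y}.Infinite} = 0 := by
    intro v
    have hm : Measurable (tr (Equiv.addRight v) : (El 2 → Bool) → (El 2 → Bool)) :=
      measurable_pi_lambda _ fun e => measurable_pi_apply _
    have h1 := tr_law (Equiv.addRight v) p
    rw [← h1, Measure.map_apply hm (meas_inf κ)] at h0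
    refine measure_mono_null ?_ h0
    intro ω hω
    exact shift_inf κ v hω
  have hU : (prodBern (El 2) p) (⋃ v : V 2, {ω | {y : V 2 | (Gr κ ω).Reachable v y}.Infinite}) = 0 :=
    measure_iUnion_null hv
  have hgood : (prodBern (El 2) p) {ω | ∀ j, EE κ n j ω} = 0 := by
    refine measure_mono_null ?_ hU
    intro ω hω
    obtain ⟨u, hu⟩ := infinite_of_EE hn hω
    exact Set.mem_iUnion.2 ⟨u, hu⟩
  have hbad : (prodBern (El 2) p) (⋃ j, {ω | ¬ EE κ n j ω}) ≤ ENNReal.ofReal (1 / 25) := by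
    refine (measure_iUnion_le _).trans ?_
    rw [← tsum_geometric_two' (1 / 25 : ℝ), ENNReal.ofReal_tsum_of_nonneg (fun j => by positivity)
      (summable_geometric_two' _)]
    apply ENNReal.tsum_le_tsum
    intro j
    have h1 : (prodBern (El 2) p) {ω | ¬ EE κ n j ω} = ENNReal.ofReal (Fl p (EE κ n j)) := by
      unfold Fl
      rw [ofReal_measureReal]
    rw [h1, fl_EE]
    exact ENNReal.ofReal_le_ofReal (ff_le κ p hn h j)
  have huniv : (1 : ENNReal) ≤ 0 + ENNReal.ofReal (1 / 25) := by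
    calc (1 : ENNReal) = (prodBern (El 2) p) Set.univ := measure_univ.symm
      _ ≤ (prodBern (El 2) p) ({ω | ∀ j, EE κ n j ω} ∪ ⋃ j, {ω | ¬ EE κ n j ω}) := by
          apply measure_mono
          intro ω _
          by_cases hω : ∀ j, EE κ n j ω
          · exact Or.inl hω
          · right
            rw [not_forall] at hω
            obtain ⟨j, hj⟩ := hω
            exact Set.mem_iUnion.2 ⟨j, hj⟩
      _ ≤ _ := measure_union_le _ _
      _ ≤ 0 + ENNReal.ofReal (1 / 25) := add_le_add hgood.le hbad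
  rw [zero_add, ENNReal.one_le_ofReal] at huniv
  norm_num at huniv

end Pool.Agent.H98.P2
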