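import Pool.Agent.H98.P2.Long
import Pool.Agent.H98.P2.Perc
import Pool.Agent.H98.P2.Cont
import Pool.Agent.H41.QA.Final

/-!
# Module Crit: no percolation at the critical point of `ℤ²`, and the final theorem
-/

set_option autoImplicit false

open MeasureTheory Filter Topology
open Pool.Agent.H17.IIC Pool.Agent.H41.QC Pool.Agent.H47.GM Pool.Agent.H41.QA

namespace Pool.Agent.H98.P2

/-- percolation at `p` implies percolation at some smaller `p'` -/
theorem theta_left (κ : Kind) (p : unitInterval) (hθ : 0 < theta κ 2 p) :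
    ∃ p' : unitInterval, (p' : ℝ) < p ∧ 0 < theta κ 2 p' := by
  have hp : 0 < (p : ℝ) := p_pos_of_theta κ p hθ
  obtain ⟨n, hn, hf⟩ : ∃ n : ℕ, 4 ≤ n ∧ ff κ p n < 1 / 50 := by
    rcases lt_or_eq_of_le p.2.2 with h | h
    · exact exists_long κ p h hθ (by norm_num)
    · exact ⟨4, le_rfl, by rw [one κ 4 p h]; norm_num⟩
  obtain ⟨p', h1, h2⟩ := cont_left (lo_HC κ 0 (4 * n) 0 n) p hp hf
  have h3 : ff κ p' n < 1 / 50 := h2
  exact ⟨p', h1, perc κ p' hn (by linarith)⟩

/-- no percolation at the critical point -/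
theorem theta_crit (κ : Kind) (p : unitInterval) (h : (p : ℝ) = pcr κ 2) : theta κ 2 p = 0 := by
  by_contra hne
  have hpos : 0 < theta κ 2 p := lt_of_le_of_ne (theta_nonneg' κ 2 p) (Ne.symm hne)
  obtain ⟨p', h1, h2⟩ := theta_left κ p hpos
  have := theta_of_lt κ 2 p' (by rw [← h]; exact h1)
  linarith

/-- the limit for every parameter, except the critical one in dimensions `≥ 3` -/
theorem limit_all {κ : Kind} {d : ℕ} (hd : 2 ≤ d) (p : unitInterval) (h : d = 2 ∨ (p : ℝ) ≠ pcr κ d) :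
    ∀ᵐ ω ∂(prodBern (El d) p), {y | (Gr κ ω).Reachable 0 y}.Infinite →
      Tendsto (fun N : ℕ => (Pn κ ω N (0 : V d) : ℝ) ^ (1 / (N : ℝ))) atTop
        (𝓝 (Real.exp (rate κ d p))) := by
  by_cases hne : (p : ℝ) = pcr κ d
  · rcases h with h | h
    · subst h
      filter_upwards [ae_fin_of_theta κ 2 p (theta_crit κ p hne)] with ω hω hinf
      exact absurd hinf hω
    · exact absurd hne h
  · exact limit_ne hd p hne

/-- THE FINAL THEOREM -/
theorem final_p2 (d : ℕ) (hd : 2 ≤ d) :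
    ∃ (pb ps : ℝ) (μb μs : unitInterval → ℝ), Monotone μb ∧ Monotone μs ∧
      -- bond percolation
      (∀ p : unitInterval,
        1 ≤ μb p ∧
        ((p : ℝ) < pb → ∀ᵐ ω ∂(prodBern (Sym2 (Fin d → ℤ)) p), ¬ BondInf ω) ∧
        (pb < (p : ℝ) → ¬ ∀ᵐ ω ∂(prodBern (Sym2 (Fin d → ℤ)) p), ¬ BondInf ω) ∧
        (d = 2 → (p : ℝ) = pb → ∀ᵐ ω ∂(prodBern (Sym2 (Fin d → ℤ)) p), ¬ BondInf ω) ∧
        (∀ᵐ ω ∂(prodBern (Sym2 (Fin d → ℤ)) p), ∀ c : ℝ, μb p < c → ∀ K : ℕ, ∀ᶠ N : ℕ in atTop,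
          ∀ x : Fin d → ℤ, (∀ i, |x i| ≤ K * N) → (bondZx ω N x : ℝ) ≤ c ^ N) ∧
        (d = 2 ∨ (p : ℝ) ≠ pb → ∀ᵐ ω ∂(prodBern (Sym2 (Fin d → ℤ)) p), BondInf ω →
          Tendsto (fun N : ℕ => (bondZx ω N 0 : ℝ) ^ (1 / (N : ℝ))) atTop (𝓝 (μb p)))) ∧
      -- site percolation
      (∀ p : unitInterval,
        1 ≤ μs p ∧
        ((p : ℝ) < ps → ∀ᵐ ω ∂(prodBern (Fin d → ℤ) p), ¬ SiteInf ω) ∧
        (ps < (p : ℝ) → ¬ ∀ᵐ ω ∂(prodBern (Fin d → ℤ) p), ¬ SiteInf ω) ∧
        (d = 2 → (p : ℝ) = ps → ∀ᵐ ω ∂(prodBern (Fin d → ℤ) p), ¬ SiteInf ω) ∧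
        (∀ᵐ ω ∂(prodBern (Fin d → ℤ) p), ∀ c : ℝ, μs p < c → ∀ K : ℕ, ∀ᶠ N : ℕ in atTop,
          ∀ x : Fin d → ℤ, (∀ i, |x i| ≤ K * N) → (siteZx ω N x : ℝ) ≤ c ^ N) ∧
        (d = 2 ∨ (p : ℝ) ≠ ps → ∀ᵐ ω ∂(prodBern (Fin d → ℤ) p), SiteInf ω →
          Tendsto (fun N : ℕ => (siteZx ω N 0 : ℝ) ^ (1 / (N : ℝ))) atTop (𝓝 (μs p)))) := by
  refine ⟨pcr .bond d, pcr .site d, fun p => Real.exp (rate .bond d p),
    fun p => Real.exp (rate .site d p), fun p q h => Real.exp_le_exp.mpr (rate_mono .bond d h),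
    fun p q h => Real.exp_le_exp.mpr (rate_mono .site d h), ?_, ?_⟩
  · intro p
    refine ⟨Real.one_le_exp (rate_nonneg .bond d p), ?_, ?_, ?_, ?_, ?_⟩
    · intro h
      filter_upwards [ae_fin_of_theta .bond d p (theta_of_lt .bond d p h)] with ω hω hinf
      exact hω (bondInf_imp ω hinf)
    · intro h hcon
      have h1 := theta_of_gt .bond d p h
      have h2 := theta_of_ae .bond d p (by
        filter_upwards [hcon] with ω hω hinf
        exact hω ((bondInf_iff ω).2 hinf))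
      linarith
    · intro h2 h
      subst h2
      filter_upwards [ae_fin_of_theta .bond 2 p (theta_crit .bond p h)] with ω hω hinf
      exact hω (bondInf_imp ω hinf)
    · simp only [bondZx_eq]
      exact qa_up .bond d p
    · intro h
      filter_upwards [limit_all (κ := .bond) hd p h] with ω hω hinf
      simp only [bondZx_eq]
      exact hω (bondInf_imp ω hinf)
  · intro p
    refine ⟨Real.one_le_exp (rate_nonneg .site d p), ?_, ?_, ?_, ?_, ?_⟩
    · intro h
      apply Final_transfer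
      filter_upwards [ae_fin_of_theta .site d p (theta_of_lt .site d p h)] with ω hω hinf
      exact hω (siteInf_imp ω hinf)
    · intro h hcon
      have h1 := theta_of_gt .site d p h
      have h2 := theta_of_ae .site d p (by
        filter_upwards [Final_transfer' d p _ hcon] with ω hω hinf
        exact hω ((siteInf_iff ω).2 hinf))
      linarith
    · intro h2 h
      subst h2
      apply Final_transfer
      filter_upwards [ae_fin_of_theta .site 2 p (theta_crit .site p h)] with ω hω hinf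
      exact hω (siteInf_imp ω hinf)
    · apply Final_transfer
      simp only [siteZx_eq]
      exact qa_up .site d p
    · intro h
      apply Final_transfer
      filter_upwards [limit_all (κ := .site) hd p h] with ω hω hinf
      simp only [siteZx_eq]
      exact hω (siteInf_imp ω hinf)

end Pool.Agent.H98.P2
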