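import Pool.Agent.H47.GM.Aut
import Pool.Agent.H47.GM.HarrisLoc
import Pool.Agent.H47.GM.QuadSymm

/-!
# P2: no percolation at the critical point of `ℤ²`, bond and site (MP_a352f3_pr, `d = 2`, `p = p_c`)

If `theta κ 2 p > 0` then `theta κ 2 p' > 0` for some `p' < p`. Square crossings have probability tending to one (`quad_many`,
uniqueness), a one-scale RSW argument gives crossings of long rectangles, and long crossings with probability near one imply
percolation by the recursion `f(2n+1) ≤ 25 f(n)²`.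
-/

set_option autoImplicit false

open MeasureTheory Filter Topology
open Pool.Agent.H17.IIC Pool.Agent.H41.QC Pool.Agent.H47.GM

namespace Pool.Agent.H98.P2

/-- the rectangle `[a,b] × [c,e]` -/
def Rc (a b c e : ℤ) : Set (V 2) := {z | (a ≤ z 0 ∧ z 0 ≤ b) ∧ c ≤ z 1 ∧ z 1 ≤ e}

/-- the rectangle as a finite set -/
noncomputable def Rf (a b c e : ℤ) : Finset (V 2) :=
  Fintype.piFinset fun i : Fin 2 => if i = 0 then Finset.Icc a b else Finset.Icc c e

/-- the elements (edges and vertices) of the rectangle -/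
noncomputable def Ef (a b c e : ℤ) : Finset (El 2) :=
  open Classical in (Rf a b c e ×ˢ Rf a b c e).image fun q => s(q.1, q.2)

/-- one open step inside `D` -/
def St (κ : Kind) (ω : El 2 → Bool) (D : Set (V 2)) (x y : V 2) : Prop :=
  (Gr κ ω).Adj x y ∧ x ∈ D ∧ y ∈ D

/-- `x` and `y` are connected by an open path inside `D` -/
def Cn (κ : Kind) (ω : El 2 → Bool) (D : Set (V 2)) (x y : V 2) : Prop :=
  Relation.ReflTransGen (St κ ω D) x y

/-- horizontal crossing of the rectangle `[a,b] × [c,e]` -/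
def HC (κ : Kind) (a b c e : ℤ) (ω : El 2 → Bool) : Prop :=
  ∃ u v : V 2, u ∈ Rc a b c e ∧ v ∈ Rc a b c e ∧ u 0 = a ∧ v 0 = b ∧ Cn κ ω (Rc a b c e) u v

/-- vertical crossing of the rectangle `[a,b] × [c,e]` -/
def VC (κ : Kind) (a b c e : ℤ) (ω : El 2 → Bool) : Prop :=
  ∃ u v : V 2, u ∈ Rc a b c e ∧ v ∈ Rc a b c e ∧ u 1 = c ∧ v 1 = e ∧ Cn κ ω (Rc a b c e) u v

/-- horizontal crossing which ends on the right side at a height in `[s,t]` -/
def HG (κ : Kind) (a b c e s t : ℤ) (ω : El 2 → Bool) : Prop :=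
  ∃ u v : V 2, u ∈ Rc a b c e ∧ v ∈ Rc a b c e ∧ u 0 = a ∧ v 0 = b ∧ s ≤ v 1 ∧ v 1 ≤ t ∧
    Cn κ ω (Rc a b c e) u v

/-- horizontal crossing which ends on the left side at a height in `[s,t]` -/
def HL (κ : Kind) (a b c e s t : ℤ) (ω : El 2 → Bool) : Prop :=
  ∃ u v : V 2, u ∈ Rc a b c e ∧ v ∈ Rc a b c e ∧ u 0 = b ∧ v 0 = a ∧ s ≤ v 1 ∧ v 1 ≤ t ∧
    Cn κ ω (Rc a b c e) u v

/-- horizontal crossing of the box `[-n,n]²` which ends on the right side at a height in `[s,t]` -/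
def HE (κ : Kind) (n : ℕ) (s t : ℤ) (ω : El 2 → Bool) : Prop := HG κ (-n) n (-n) n s t ω

/-- the star event: one cluster of the box reaches all half sides -/
def Star (κ : Kind) (n : ℕ) (ω : El 2 → Bool) : Prop :=
  ∃ c ∈ Rc (-n) n (-n) n, ∀ (i : Fin 2) (τ : Fin 2 → Bool), ∃ y ∈ Qd n i τ, Cn κ ω (Rc (-n) n (-n) n) c y

/-- the X event: one cluster of the box reaches all four sides pieces of height at least `α` in absolute value -/
def XX (κ : Kind) (n : ℕ) (α : ℤ) (ω : El 2 → Bool) : Prop :=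
  ∃ r₁ r₂ l₁ l₂ : V 2, (r₁ ∈ Rc (-n) n (-n) n ∧ r₂ ∈ Rc (-n) n (-n) n ∧ l₁ ∈ Rc (-n) n (-n) n ∧
      l₂ ∈ Rc (-n) n (-n) n) ∧
    (r₁ 0 = n ∧ α ≤ r₁ 1) ∧ (r₂ 0 = n ∧ r₂ 1 ≤ -α) ∧ (l₁ 0 = -n ∧ α ≤ l₁ 1) ∧ (l₂ 0 = -n ∧ l₂ 1 ≤ -α) ∧
    Cn κ ω (Rc (-n) n (-n) n) r₁ r₂ ∧ Cn κ ω (Rc (-n) n (-n) n) r₁ l₁ ∧ Cn κ ω (Rc (-n) n (-n) n) r₁ l₂

/-- probability that the event `E` fails -/
noncomputable def Fl (p : unitInterval) (E : (El 2 → Bool) → Prop) : ℝ :=
  (prodBern (El 2) p).real {ω | ¬ E ω}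

/-- local events -/
def Lo (E : (El 2 → Bool) → Prop) : Prop := ∃ Λ : Finset (El 2), On (Λ : Set (El 2)) {ω | E ω}

/-- the failure probability of the long crossing of `[0,4n] × [0,n]` -/
noncomputable def ff (κ : Kind) (p : unitInterval) (n : ℕ) : ℝ := Fl p (HC κ 0 (4 * n) 0 n)

end Pool.Agent.H98.P2
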