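import Pool.Agent.H98.P2.Bas

/-!
# Module Sub: parts of a path between two levels of a coordinate

`cn_pre`: induction on the path from the left (`Relation.ReflTransGen.head_induction_on`): if `x i = t` take `y' = x`; if `x i < t` the next
vertex `c` has `c i ≤ t` (`St.step`), use the induction hypothesis and prepend the step. `cn_suf`: the same from the other end (or `cn_pre`
for the reversed path with the inequalities reversed, by induction on the tail). `cn_sub`: `cn_pre`, then `cn_suf` inside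
`D ∩ {z i ≤ t}`.
-/

set_option autoImplicit false

open MeasureTheory Filter Topology
open Pool.Agent.H17.IIC Pool.Agent.H41.QC Pool.Agent.H47.GM

namespace Pool.Agent.H98.P2

variable {κ : Kind} {ω : El 2 → Bool} {D : Set (V 2)} {x y : V 2}

theorem cn_pre (i : Fin 2) {t : ℤ} (hx : x ∈ D) (h : Cn κ ω D x y) (hxt : x i ≤ t) (hyt : t ≤ y i) :
    ∃ y' ∈ D, y' i = t ∧ Cn κ ω (D ∩ {z | z i ≤ t}) x y' := by
  unfold Cn at h
  induction h using Relation.ReflTransGen.head_induction_on with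
  | refl => exact ⟨y, hx, le_antisymm hxt hyt, Cn.refl y⟩
  | @head a c hs hc ih =>
    rcases hxt.eq_or_lt with h1 | h1
    · exact ⟨a, hx, h1, Cn.refl a⟩
    · have h2 := abs_le.1 (hs.step i)
      have h3 : c i ≤ t := by omega
      obtain ⟨y', hy', hyt', hcy⟩ := ih hs.2.2 h3
      refine ⟨y', hy', hyt', ?_⟩
      exact Relation.ReflTransGen.head ⟨hs.1, ⟨hs.2.1, hxt⟩, ⟨hs.2.2, h3⟩⟩ hcy

theorem cn_suf (i : Fin 2) {s : ℤ} (hx : x ∈ D) (h : Cn κ ω D x y) (hxs : x i ≤ s) (hys : s ≤ y i) :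
    ∃ x' ∈ D, x' i = s ∧ Cn κ ω (D ∩ {z | s ≤ z i}) x' y := by
  unfold Cn at h
  revert hys
  induction h with
  | refl =>
    intro hys
    exact ⟨x, hx, le_antisymm hxs hys, Cn.refl x⟩
  | @tail b c hb hs ih =>
    intro hys
    rcases hys.eq_or_lt with h1 | h1
    · exact ⟨c, hs.2.2, h1.symm, Cn.refl c⟩
    · have h2 := abs_le.1 (hs.step i)
      have h3 : s ≤ b i := by omega
      obtain ⟨x', hx', hxs', hxb⟩ := ih h3
      refine ⟨x', hx', hxs', ?_⟩
      exact Relation.ReflTransGen.tail hxb ⟨hs.1, ⟨hs.2.1, h3⟩, ⟨hs.2.2, hys⟩⟩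

theorem cn_sub (i : Fin 2) {s t : ℤ} (hst : s ≤ t) (hx : x ∈ D) (h : Cn κ ω D x y) (hxs : x i ≤ s)
    (hyt : t ≤ y i) : ∃ x' ∈ D, ∃ y' ∈ D, x' i = s ∧ y' i = t ∧
      Cn κ ω (D ∩ {z | s ≤ z i ∧ z i ≤ t}) x' y' ∧ Cn κ ω D x x' := by
  obtain ⟨y', hy', hyt', h1⟩ := cn_pre i hx h (hxs.trans hst) hyt
  obtain ⟨x', hx', hxs', h2⟩ := cn_suf i (D := D ∩ {z | z i ≤ t}) ⟨hx, hxs.trans hst⟩ h1 hxs
    (by rw [hyt']; exact hst)
  refine ⟨x', hx'.1, y', hy', hxs', hyt', ?_, ?_⟩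
  · refine h2.mono ?_
    rintro z ⟨⟨h3, h4⟩, h5⟩
    exact ⟨h3, h5, h4⟩
  · have h3 : Cn κ ω D x y' := h1.mono fun z hz => hz.1
    have h4 : Cn κ ω D x' y' := h2.mono fun z hz => hz.1.1
    exact h3.trans h4.symm

end Pool.Agent.H98.P2
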