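import Pool.Agent.H98.P2.Plan
import Pool.Agent.H98.P2.Sub

/-!
# Module Meet: crossing paths meet

`meet`: replace the two paths by parts (`cn_sub`, coordinate `0` for the first, `1` for the second) which cross `R = [a,b] × [c,e]`,
and apply `planar` with `A = {z ∈ D₁ ∩ R | Cn κ ω D₁ u z}`, `B = {z ∈ D₂ ∩ R | Cn κ ω D₂ u' z}` (`Cn.cluster` keeps the connection to the
starting point; `St.lat`). `meet_HV`: crossing `[a,b] × [c,e]` horizontally and `[a',b'] × [c',e']` vertically with `a ≤ a'`, `b' ≤ b`, `c' ≤ c`, `e ≤ e'`.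
-/

set_option autoImplicit false

open MeasureTheory Filter Topology
open Pool.Agent.H17.IIC Pool.Agent.H41.QC Pool.Agent.H47.GM

namespace Pool.Agent.H98.P2

variable {κ : Kind} {ω : El 2 → Bool}

private lemma lp_of_cn {A : Set (V 2)} {x y : V 2} (h : Cn κ ω A x y) : LP A x y :=
  Relation.ReflTransGen.mono (fun _ _ hs => ⟨St.lat hs, hs.2.1, hs.2.2⟩) _ _ h

theorem meet {D₁ D₂ : Set (V 2)} {u v u' v' : V 2} {a b c e : ℤ} (hab : a ≤ b) (hce : c ≤ e)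
    (h1 : Cn κ ω D₁ u v) (hu : u ∈ D₁) (hua : u 0 ≤ a) (hvb : b ≤ v 0)
    (hD₁ : ∀ z ∈ D₁, c ≤ z 1 ∧ z 1 ≤ e)
    (h2 : Cn κ ω D₂ u' v') (hu' : u' ∈ D₂) (huc : u' 1 ≤ c) (hve : e ≤ v' 1)
    (hD₂ : ∀ z ∈ D₂, a ≤ z 0 ∧ z 0 ≤ b) :
    ∃ z ∈ D₁ ∩ D₂, Cn κ ω D₁ u z ∧ Cn κ ω D₂ u' z := by
  obtain ⟨x, hx, y, hy, hx0, hy0, hxy, hux⟩ := cn_sub 0 hab hu h1 hua hvb
  obtain ⟨x', hx', y', hy', hx1, hy1, hxy', hux'⟩ := cn_sub 1 hce hu' h2 huc hve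
  set E₁ : Set (V 2) := D₁ ∩ {z | a ≤ z 0 ∧ z 0 ≤ b} with hE₁
  set E₂ : Set (V 2) := D₂ ∩ {z | c ≤ z 1 ∧ z 1 ≤ e} with hE₂
  have hx2 : x ∈ E₁ := ⟨hx, ⟨hx0.ge, hx0.le.trans hab⟩⟩
  have hx2' : x' ∈ E₂ := ⟨hx', ⟨hx1.ge, hx1.le.trans hce⟩⟩
  obtain ⟨z, hzA, hzB⟩ := planar (a := a) (b := b) (c := c) (e := e)
    (A := {z | z ∈ E₁ ∧ Cn κ ω E₁ x z}) (B := {z | z ∈ E₂ ∧ Cn κ ω E₂ x' z})
    (fun z hz => ⟨hz.1.2, hD₁ z hz.1.1⟩) (fun z hz => ⟨hD₂ z hz.1.1, hz.1.2⟩)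
    (show x ∈ {z | z ∈ E₁ ∧ Cn κ ω E₁ x z} from ⟨hx2, Cn.refl x⟩) hx0 hy0 (lp_of_cn hxy.cluster)
    (show x' ∈ {z | z ∈ E₂ ∧ Cn κ ω E₂ x' z} from ⟨hx2', Cn.refl x'⟩) hx1 hy1 (lp_of_cn hxy'.cluster)
  exact ⟨z, ⟨hzA.1.1, hzB.1.1⟩, hux.trans (hzA.2.mono Set.inter_subset_left),
    hux'.trans (hzB.2.mono Set.inter_subset_left)⟩

/-- a horizontal crossing of `[a,b] × [c,e]` from `u` and a vertical crossing of `[a',b'] × [c',e']` from `u'` are connected -/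
theorem meet_HV {a b c e a' b' c' e' : ℤ} (h1 : a ≤ a') (h2 : b' ≤ b) (h3 : c' ≤ c) (h4 : e ≤ e')
    {u v u' v' : V 2} (hu : u ∈ Rc a b c e) (hu0 : u 0 = a) (hv0 : v 0 = b) (hc : Cn κ ω (Rc a b c e) u v)
    (hu' : u' ∈ Rc a' b' c' e') (hu1 : u' 1 = c') (hv1 : v' 1 = e') (hc' : Cn κ ω (Rc a' b' c' e') u' v') :
    Cn κ ω (Rc a b c e ∪ Rc a' b' c' e') u u' := by
  obtain ⟨z, _, hz1, hz2⟩ := meet (a := a') (b := b') (c := c) (e := e) (hu'.1.1.trans hu'.1.2)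
    (hu.2.1.trans hu.2.2) hc hu (hu0.le.trans h1) (h2.trans hv0.ge) (fun z hz => hz.2)
    hc' hu' (hu1.le.trans h3) (h4.trans hv1.ge) (fun z hz => hz.1)
  exact (hz1.mono Set.subset_union_left).trans (hz2.mono Set.subset_union_right).symm

end Pool.Agent.H98.P2
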