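import Pool.Agent.H98.P2.Inv
import Pool.Agent.H98.P2.Meet

/-!
# Module Ext: longer rectangles

`hc_glue` (deterministic): horizontal crossings of `[a,b] × [c,e]` and `[a',b'] × [c,e]` with `a ≤ a' ≤ b ≤ b'` and a vertical crossing of `[a',b] × [c,e']`, `e ≤ e'`,
give a horizontal crossing of `[a,b'] × [c,e]`: first replace the vertical crossing by a part in `[a',b] × [c,e]` (`cn_sub`, coordinate `1`,
levels `c`, `e`), then `meet_HV` twice and `Cn.mono`.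
`hc_short`: a horizontal crossing of a longer rectangle contains one of a shorter rectangle (`cn_sub`, coordinate `0`).
`ext`: induction on `k`: `[0, W + (k+1) δ] = [0, W + k δ] ∪ [(k+1) δ, (k+1) δ + W]`, `δ = W - 2 r`, the overlap `[(k+1) δ, W + k δ]` has width
`W - δ = 2 r`; the vertical crossing of `[(k+1) δ, (k+1) δ + 2 r] × [0, 2 r]` is a translate of the one of `[-r,r]²` (`fl_VC_shift`), the second horizontal crossing a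
translate of the first (`fl_HC_shift`); `fl_two` twice: `(2k+1) ε + ε + ε`.
-/

set_option autoImplicit false

open MeasureTheory Filter Topology
open Pool.Agent.H17.IIC Pool.Agent.H41.QC Pool.Agent.H47.GM

namespace Pool.Agent.H98.P2

variable {κ : Kind} {p : unitInterval}

theorem hc_glue {ω : El 2 → Bool} {a b a' b' c e e' : ℤ} (h1 : a ≤ a') (h2 : a' ≤ b) (h3 : b ≤ b')
    (hce : c ≤ e) (hee : e ≤ e') (hH : HC κ a b c e ω) (hH' : HC κ a' b' c e ω) (hV : VC κ a' b c e' ω) :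
    HC κ a b' c e ω := by
  obtain ⟨u, v, hu, hv, hu0, hv0, hc⟩ := hH
  obtain ⟨u₂, v₂, hu₂, hv₂, hu₂0, hv₂0, hc₂⟩ := hH'
  obtain ⟨w, w', hw, hw', hw1, hw'1, hcw⟩ := hV
  obtain ⟨x, hx, y, hy, hx1, hy1, hxy, -⟩ := cn_sub (1 : Fin 2) hce hw hcw (le_of_eq hw1) (by rw [hw'1]; exact hee)
  have hsub : Rc a' b c e' ∩ {z : V 2 | c ≤ z 1 ∧ z 1 ≤ e} ⊆ Rc a' b c e := by
    rintro z ⟨⟨hz1, -⟩, hz2⟩
    exact ⟨hz1, hz2⟩
  have hxy' : Cn κ ω (Rc a' b c e) x y := hxy.mono hsub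
  have hx' : x ∈ Rc a' b c e := ⟨hx.1, by rw [hx1], by rw [hx1]; exact hce⟩
  have m1 := meet_HV h1 le_rfl le_rfl le_rfl hu hu0 hv0 hc hx' hx1 hy1 hxy'
  have m2 := meet_HV le_rfl h3 le_rfl le_rfl hu₂ hu₂0 hv₂0 hc₂ hx' hx1 hy1 hxy'
  have s1 : Rc a b c e ∪ Rc a' b c e ⊆ Rc a b' c e :=
    Set.union_subset (Rc_mono le_rfl h3 le_rfl le_rfl) (Rc_mono h1 h3 le_rfl le_rfl)
  have s2 : Rc a' b' c e ∪ Rc a' b c e ⊆ Rc a b' c e :=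
    Set.union_subset (Rc_mono h1 le_rfl le_rfl le_rfl) (Rc_mono h1 h3 le_rfl le_rfl)
  refine ⟨u, v₂, Rc_mono le_rfl h3 le_rfl le_rfl hu, Rc_mono h1 le_rfl le_rfl le_rfl hv₂, hu0, hv₂0, ?_⟩
  exact ((m1.mono s1).trans (m2.mono s2).symm).trans (hc₂.mono (Rc_mono h1 le_rfl le_rfl le_rfl))

theorem hc_short {ω : El 2 → Bool} {a b b' c e : ℤ} (h1 : a ≤ b) (h2 : b ≤ b') (h : HC κ a b' c e ω) :
    HC κ a b c e ω := by
  obtain ⟨u, v, hu, hv, hu0, hv0, hc⟩ := h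
  obtain ⟨x, hx, y, hy, hx0, hy0, hxy, -⟩ := cn_sub (0 : Fin 2) h1 hu hc (le_of_eq hu0) (by rw [hv0]; exact h2)
  have hsub : Rc a b' c e ∩ {z : V 2 | a ≤ z 0 ∧ z 0 ≤ b} ⊆ Rc a b c e := by
    rintro z ⟨⟨-, hz1⟩, hz2⟩
    exact ⟨hz2, hz1⟩
  exact ⟨x, y, ⟨⟨by rw [hx0], by rw [hx0]; exact h1⟩, hx.2⟩, ⟨⟨by rw [hy0]; exact h1, by rw [hy0]⟩, hy.2⟩, hx0, hy0, hxy.mono hsub⟩

theorem ext (κ : Kind) (p : unitInterval) {W H r : ℕ} (h1 : H ≤ 2 * r) (h2 : 2 * r ≤ W) {ε : ℝ}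
    (hH : Fl p (HC κ 0 W 0 H) ≤ ε) (hV : Fl p (VC κ (-r) r (-r) r) ≤ ε) (k : ℕ) :
    Fl p (HC κ 0 (W + k * (W - 2 * r)) 0 H) ≤ (2 * k + 1) * ε := by
  have h1' : (H : ℤ) ≤ 2 * (r : ℤ) := by exact_mod_cast h1
  have h2' : 2 * (r : ℤ) ≤ (W : ℤ) := by exact_mod_cast h2
  have hH0 : (0 : ℤ) ≤ (H : ℤ) := Int.natCast_nonneg H
  have hr0 : (0 : ℤ) ≤ (r : ℤ) := Int.natCast_nonneg r
  induction k with
  | zero =>
    have e1 : ((W : ℤ) + ((0 : ℕ) : ℤ) * ((W : ℤ) - 2 * (r : ℤ))) = W := by push_cast; ring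
    rw [e1]
    push_cast
    linarith
  | succ k ih =>
    have hk0 : (0 : ℤ) ≤ (k : ℤ) := Int.natCast_nonneg k
    have hδ : (0 : ℤ) ≤ (W : ℤ) - 2 * (r : ℤ) := by linarith
    have hkδ : (0 : ℤ) ≤ (k : ℤ) * ((W : ℤ) - 2 * (r : ℤ)) := mul_nonneg hk0 hδ
    -- the three events
    have A : Fl p (HC κ (0 + ((k : ℤ) + 1) * ((W : ℤ) - 2 * r)) (W + ((k : ℤ) + 1) * ((W : ℤ) - 2 * r)) (0 + 0) (H + 0)) ≤ ε := by
      rw [fl_HC_shift]; exact hH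
    have B : Fl p (VC κ (-r + (((k : ℤ) + 1) * ((W : ℤ) - 2 * r) + r)) (r + (((k : ℤ) + 1) * ((W : ℤ) - 2 * r) + r))
        (-r + r) (r + r)) ≤ ε := by
      rw [fl_VC_shift]; exact hV
    have key : ∀ ω, HC κ 0 (W + k * (W - 2 * r)) 0 H ω →
        (HC κ (0 + ((k : ℤ) + 1) * ((W : ℤ) - 2 * r)) (W + ((k : ℤ) + 1) * ((W : ℤ) - 2 * r)) (0 + 0) (H + 0) ω ∧
        VC κ (-r + (((k : ℤ) + 1) * ((W : ℤ) - 2 * r) + r)) (r + (((k : ℤ) + 1) * ((W : ℤ) - 2 * r) + r))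
        (-r + r) (r + r) ω) → HC κ 0 (W + (k + 1 : ℕ) * (W - 2 * r)) 0 H ω := by
      rintro ω x1 ⟨x2, x3⟩
      have e1 : (-(r : ℤ) + (((k : ℤ) + 1) * ((W : ℤ) - 2 * r) + r)) = 0 + ((k : ℤ) + 1) * ((W : ℤ) - 2 * r) := by ring
      have e2 : ((r : ℤ) + (((k : ℤ) + 1) * ((W : ℤ) - 2 * r) + r)) = W + k * (W - 2 * r) := by ring
      have e3 : (-(r : ℤ) + r) = 0 := by ring
      have e4 : ((W : ℤ) + ((k + 1 : ℕ) : ℤ) * (W - 2 * r)) = W + ((k : ℤ) + 1) * ((W : ℤ) - 2 * r) := by push_cast; ring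
      rw [e1, e2, e3] at x3
      rw [add_zero (0 : ℤ), add_zero (H : ℤ)] at x2
      rw [e4]
      refine hc_glue (a' := 0 + ((k : ℤ) + 1) * ((W : ℤ) - 2 * r)) (b := (W + k * (W - 2 * r) : ℤ)) (e' := (r : ℤ) + r) ?_ ?_ ?_ hH0 ?_ x1 x2 x3
      · nlinarith
      · nlinarith
      · nlinarith
      · linarith
    have s1 := fl_two (p := p) key
    have s2 := fl_two (p := p) (E₁ := HC κ (0 + ((k : ℤ) + 1) * ((W : ℤ) - 2 * r)) (W + ((k : ℤ) + 1) * ((W : ℤ) - 2 * r)) (0 + 0) (H + 0))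
      (E₂ := VC κ (-r + (((k : ℤ) + 1) * ((W : ℤ) - 2 * r) + r)) (r + (((k : ℤ) + 1) * ((W : ℤ) - 2 * r) + r))
        (-r + r) (r + r))
      (E := fun ω => HC κ (0 + ((k : ℤ) + 1) * ((W : ℤ) - 2 * r)) (W + ((k : ℤ) + 1) * ((W : ℤ) - 2 * r)) (0 + 0) (H + 0) ω ∧
        VC κ (-r + (((k : ℤ) + 1) * ((W : ℤ) - 2 * r) + r)) (r + (((k : ℤ) + 1) * ((W : ℤ) - 2 * r) + r))
        (-r + r) (r + r) ω) (fun ω a b => ⟨a, b⟩)
    have e5 : (2 * (((k + 1 : ℕ) : ℝ)) + 1) * ε = (2 * (k : ℝ) + 1) * ε + (ε + ε) := by push_cast; ring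
    rw [e5]
    linarith

end Pool.Agent.H98.P2
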