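import Pool.Agent.H98.P2.Loc

/-!
# Module Inv: invariance of the failure probabilities under the symmetries of the lattice

`fl_tr` with `φ = Equiv.addRight (![x, y])` (`isAut_add`), `φ = sperm π τ` (`isAut_sperm`; `π = Equiv.swap 0 1` or `1`, signs `τ`): by
`cn_tr`, `HC κ a b c e (tr φ ω) ↔ HC κ (a+x) (b+x) (c+y) (e+y) ω` etc., where `φ '' Rc a b c e` is the image rectangle. `fl_HL`: reflection
`z ↦ (- z 0, z 1)`. `fl_flip`: `z ↦ (z 0, - z 1)`. `fl_VC`: exchange of the coordinates. Locality: module Loc.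
-/

set_option autoImplicit false

open MeasureTheory Filter Topology
open Pool.Agent.H17.IIC Pool.Agent.H41.QC Pool.Agent.H47.GM

namespace Pool.Agent.H98.P2

variable {κ : Kind} {p : unitInterval}

private lemma tr_gen {φ : V 2 ≃ V 2} (hφ : IsAut φ) {D D' : Set (V 2)} {A A' B B' : V 2 → Prop}
    (hD : ∀ z, φ z ∈ D' ↔ z ∈ D) (hA : ∀ z, A' (φ z) ↔ A z) (hB : ∀ z, B' (φ z) ↔ B z) (ω : El 2 → Bool) :
    (∃ u v : V 2, u ∈ D ∧ v ∈ D ∧ A u ∧ B v ∧ Cn κ (tr φ ω) D u v) ↔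
      ∃ u v : V 2, u ∈ D' ∧ v ∈ D' ∧ A' u ∧ B' v ∧ Cn κ ω D' u v := by
  have himg : φ '' D = D' := by
    ext w
    constructor
    · rintro ⟨z, hz, rfl⟩
      exact (hD z).2 hz
    · intro hw
      refine ⟨φ.symm w, (hD _).1 ?_, Equiv.apply_symm_apply _ _⟩
      rw [Equiv.apply_symm_apply]; exact hw
  constructor
  · rintro ⟨u, v, hu, hv, hau, hbv, hc⟩
    refine ⟨φ u, φ v, (hD u).2 hu, (hD v).2 hv, (hA u).2 hau, (hB v).2 hbv, ?_⟩
    rw [cn_tr hφ, himg] at hc
    exact hc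
  · rintro ⟨u, v, hu, hv, hau, hbv, hc⟩
    refine ⟨φ.symm u, φ.symm v, ?_, ?_, ?_, ?_, ?_⟩
    · rw [← hD, Equiv.apply_symm_apply]; exact hu
    · rw [← hD, Equiv.apply_symm_apply]; exact hv
    · rw [← hA, Equiv.apply_symm_apply]; exact hau
    · rw [← hB, Equiv.apply_symm_apply]; exact hbv
    · rw [cn_tr hφ, himg, Equiv.apply_symm_apply, Equiv.apply_symm_apply]; exact hc

private lemma rc_shift (a b c e x y : ℤ) (z : V 2) :
    (Equiv.addRight (![x, y] : V 2)) z ∈ Rc (a + x) (b + x) (c + y) (e + y) ↔ z ∈ Rc a b c e := by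
  have h0 : (Equiv.addRight (![x, y] : V 2)) z 0 = z 0 + x := rfl
  have h1 : (Equiv.addRight (![x, y] : V 2)) z 1 = z 1 + y := rfl
  unfold Rc
  simp only [Set.mem_ofPred_eq, h0, h1]
  constructor
  · rintro ⟨⟨h2, h3⟩, h4, h5⟩
    exact ⟨⟨by linarith, by linarith⟩, by linarith, by linarith⟩
  · rintro ⟨⟨h2, h3⟩, h4, h5⟩
    exact ⟨⟨by linarith, by linarith⟩, by linarith, by linarith⟩

private lemma tr_HC_shift (κ : Kind) (a b c e x y : ℤ) (ω : El 2 → Bool) :
    HC κ a b c e (tr (Equiv.addRight (![x, y] : V 2)) ω) ↔ HC κ (a + x) (b + x) (c + y) (e + y) ω := by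
  have h := tr_gen (κ := κ) (isAut_add (![x, y] : V 2)) (D := Rc a b c e) (D' := Rc (a + x) (b + x) (c + y) (e + y))
    (A := fun u => u 0 = a) (A' := fun u => u 0 = a + x) (B := fun v => v 0 = b) (B' := fun v => v 0 = b + x)
    (rc_shift a b c e x y) (by intro z; simp) (by intro z; simp) ω
  exact h

private lemma tr_VC_shift (κ : Kind) (a b c e x y : ℤ) (ω : El 2 → Bool) :
    VC κ a b c e (tr (Equiv.addRight (![x, y] : V 2)) ω) ↔ VC κ (a + x) (b + x) (c + y) (e + y) ω := by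
  have h := tr_gen (κ := κ) (isAut_add (![x, y] : V 2)) (D := Rc a b c e) (D' := Rc (a + x) (b + x) (c + y) (e + y))
    (A := fun u => u 1 = c) (A' := fun u => u 1 = c + y) (B := fun v => v 1 = e) (B' := fun v => v 1 = e + y)
    (rc_shift a b c e x y) (by intro z; simp) (by intro z; simp) ω
  exact h

private lemma tr_VC (κ : Kind) (a b c e : ℤ) (ω : El 2 → Bool) :
    VC κ a b c e (tr (sperm (Equiv.swap (0 : Fin 2) 1) (fun _ => true)) ω) ↔ HC κ c e a b ω := by
  have h := tr_gen (κ := κ) (isAut_sperm (Equiv.swap (0 : Fin 2) 1) (fun _ => true)) (D := Rc a b c e) (D' := Rc c e a b)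
    (A := fun u => u 1 = c) (A' := fun u => u 0 = c) (B := fun v => v 1 = e) (B' := fun v => v 0 = e)
    (by intro z; simp [Rc, sperm, sg, and_comm]) (by intro z; simp [sperm, sg]) (by intro z; simp [sperm, sg]) ω
  exact h

private lemma tr_HG_shift (κ : Kind) (a b c e s t x y : ℤ) (ω : El 2 → Bool) :
    HG κ a b c e s t (tr (Equiv.addRight (![x, y] : V 2)) ω) ↔
      HG κ (a + x) (b + x) (c + y) (e + y) (s + y) (t + y) ω := by
  have h := tr_gen (κ := κ) (isAut_add (![x, y] : V 2)) (D := Rc a b c e) (D' := Rc (a + x) (b + x) (c + y) (e + y))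
    (A := fun u => u 0 = a) (A' := fun u => u 0 = a + x) (B := fun v => v 0 = b ∧ s ≤ v 1 ∧ v 1 ≤ t)
    (B' := fun v => v 0 = b + x ∧ s + y ≤ v 1 ∧ v 1 ≤ t + y)
    (rc_shift a b c e x y) (by intro z; simp) (by intro z; simp) ω
  simpa only [HG, and_assoc] using h

private lemma tr_HL (κ : Kind) (a b c e s t : ℤ) (ω : El 2 → Bool) :
    HG κ a b c e s t (tr (sperm (1 : Equiv.Perm (Fin 2)) (fun i => decide (i = 1))) ω) ↔
      HL κ (-b) (-a) c e s t ω := by
  have h := tr_gen (κ := κ) (isAut_sperm (1 : Equiv.Perm (Fin 2)) (fun i => decide (i = 1))) (D := Rc a b c e)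
    (D' := Rc (-b) (-a) c e)
    (A := fun u => u 0 = a) (A' := fun u => u 0 = -a) (B := fun v => v 0 = b ∧ s ≤ v 1 ∧ v 1 ≤ t)
    (B' := fun v => v 0 = -b ∧ s ≤ v 1 ∧ v 1 ≤ t)
    (by intro z; simp [Rc, sperm, sg]; tauto) (by intro z; simp [sperm, sg]) (by intro z; simp [sperm, sg]) ω
  simpa only [HG, HL, and_assoc] using h

private lemma tr_flip (κ : Kind) (a b c e s t : ℤ) (ω : El 2 → Bool) :
    HG κ a b c e s t (tr (sperm (1 : Equiv.Perm (Fin 2)) (fun i => decide (i = 0))) ω) ↔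
      HG κ a b (-e) (-c) (-t) (-s) ω := by
  have h := tr_gen (κ := κ) (isAut_sperm (1 : Equiv.Perm (Fin 2)) (fun i => decide (i = 0))) (D := Rc a b c e)
    (D' := Rc a b (-e) (-c))
    (A := fun u => u 0 = a) (A' := fun u => u 0 = a) (B := fun v => v 0 = b ∧ s ≤ v 1 ∧ v 1 ≤ t)
    (B' := fun v => v 0 = b ∧ -t ≤ v 1 ∧ v 1 ≤ -s)
    (by intro z; simp [Rc, sperm, sg]; tauto) (by intro z; simp [sperm, sg]) (by intro z; simp [sperm, sg]; tauto) ω
  simpa only [HG, and_assoc] using h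

theorem fl_HC_shift (κ : Kind) (p : unitInterval) (a b c e x y : ℤ) :
    Fl p (HC κ (a + x) (b + x) (c + y) (e + y)) = Fl p (HC κ a b c e) := by
  rw [← fl_tr (Equiv.addRight (![x, y] : V 2)) (lo_HC κ a b c e)]
  congr 1
  funext ω
  exact propext (tr_HC_shift κ a b c e x y ω).symm

theorem fl_VC_shift (κ : Kind) (p : unitInterval) (a b c e x y : ℤ) :
    Fl p (VC κ (a + x) (b + x) (c + y) (e + y)) = Fl p (VC κ a b c e) := by
  rw [← fl_tr (Equiv.addRight (![x, y] : V 2)) (lo_VC κ a b c e)]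
  congr 1
  funext ω
  exact propext (tr_VC_shift κ a b c e x y ω).symm

theorem fl_VC (κ : Kind) (p : unitInterval) (a b c e : ℤ) : Fl p (VC κ a b c e) = Fl p (HC κ c e a b) := by
  rw [← fl_tr (sperm (Equiv.swap (0 : Fin 2) 1) (fun _ => true)) (lo_VC κ a b c e)]
  congr 1
  funext ω
  exact propext (tr_VC κ a b c e ω)

theorem fl_HG_shift (κ : Kind) (p : unitInterval) (a b c e s t x y : ℤ) :
    Fl p (HG κ (a + x) (b + x) (c + y) (e + y) (s + y) (t + y)) = Fl p (HG κ a b c e s t) := by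
  rw [← fl_tr (Equiv.addRight (![x, y] : V 2)) (lo_HG κ a b c e s t)]
  congr 1
  funext ω
  exact propext (tr_HG_shift κ a b c e s t x y ω).symm

theorem fl_HL (κ : Kind) (p : unitInterval) (a b c e s t : ℤ) :
    Fl p (HL κ (-b) (-a) c e s t) = Fl p (HG κ a b c e s t) := by
  rw [← fl_tr (sperm (1 : Equiv.Perm (Fin 2)) (fun i => decide (i = 1))) (lo_HG κ a b c e s t)]
  congr 1
  funext ω
  exact propext (tr_HL κ a b c e s t ω).symm

theorem fl_flip (κ : Kind) (p : unitInterval) (a b c e s t : ℤ) :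
    Fl p (HG κ a b (-e) (-c) (-t) (-s)) = Fl p (HG κ a b c e s t) := by
  rw [← fl_tr (sperm (1 : Equiv.Perm (Fin 2)) (fun i => decide (i = 0))) (lo_HG κ a b c e s t)]
  congr 1
  funext ω
  exact propext (tr_flip κ a b c e s t ω).symm

end Pool.Agent.H98.P2
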