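import Pool.Agent.H98.P2.Bas

/-!
# Module Loc: the crossing events are local and increasing

From `cn_congr` and `Cn.incr`. `on_HC`: `HC κ a b c e` depends only on the elements of the rectangle. `ef_disj`: an element of `Ef a b c e` is
`s(x, y)` with `x, y` in the rectangle; if it were in both sets, `x` would have `x 1 ≤ e < c' ≤ x 1` (`Sym2` equality gives `x` in the second
rectangle). `Lo` of `XX` is the case of the box.
-/

set_option autoImplicit false

open MeasureTheory Filter Topology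
open Pool.Agent.H17.IIC Pool.Agent.H41.QC Pool.Agent.H47.GM

namespace Pool.Agent.H98.P2

variable {κ : Kind}

private lemma cc {a b c e : ℤ} {ω ω' : El 2 → Bool}
    (h : ∀ i ∈ (Ef a b c e : Set (El 2)), ω i = ω' i) (x y : V 2) :
    Cn κ ω (Rc a b c e) x y ↔ Cn κ ω' (Rc a b c e) x y :=
  cn_congr (fun l hl => h l (Finset.mem_coe.2 hl)) x y

theorem on_HC (κ : Kind) (a b c e : ℤ) : On (Ef a b c e : Set (El 2)) {ω | HC κ a b c e ω} := by
  intro ω ω' h
  show HC κ a b c e ω ↔ HC κ a b c e ω'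
  unfold HC
  simp only [cc h]

theorem lo_HC (κ : Kind) (a b c e : ℤ) : Lo (HC κ a b c e) := ⟨_, on_HC κ a b c e⟩

theorem lo_VC (κ : Kind) (a b c e : ℤ) : Lo (VC κ a b c e) := by
  refine ⟨Ef a b c e, fun ω ω' h => ?_⟩
  show VC κ a b c e ω ↔ VC κ a b c e ω'
  unfold VC
  simp only [cc h]

theorem lo_HG (κ : Kind) (a b c e s t : ℤ) : Lo (HG κ a b c e s t) := by
  refine ⟨Ef a b c e, fun ω ω' h => ?_⟩
  show HG κ a b c e s t ω ↔ HG κ a b c e s t ω'
  unfold HG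
  simp only [cc h]

theorem lo_HL (κ : Kind) (a b c e s t : ℤ) : Lo (HL κ a b c e s t) := by
  refine ⟨Ef a b c e, fun ω ω' h => ?_⟩
  show HL κ a b c e s t ω ↔ HL κ a b c e s t ω'
  unfold HL
  simp only [cc h]

theorem lo_XX (κ : Kind) (n : ℕ) (α : ℤ) : Lo (XX κ n α) := by
  refine ⟨Ef (-n) n (-n) n, fun ω ω' h => ?_⟩
  show XX κ n α ω ↔ XX κ n α ω'
  unfold XX
  simp only [cc h]

theorem incr_HG (κ : Kind) (a b c e s t : ℤ) : Incr {ω | HG κ a b c e s t ω} := by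
  intro ω ω' hω h
  obtain ⟨u, v, h1, h2, h3, h4, h5, h6, h7⟩ := h
  exact ⟨u, v, h1, h2, h3, h4, h5, h6, h7.incr hω⟩

theorem ef_disj {a b c e a' b' c' e' : ℤ} (h : e < c') :
    Disjoint (Ef a b c e : Set (El 2)) (Ef a' b' c' e' : Set (El 2)) := by
  classical
  rw [Set.disjoint_left]
  intro l hl hl'
  rw [Finset.mem_coe] at hl hl'
  unfold Ef at hl hl'
  rw [Finset.mem_image] at hl hl'
  obtain ⟨⟨x, y⟩, hxy, rfl⟩ := hl
  obtain ⟨⟨x', y'⟩, hxy', heq⟩ := hl'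
  rw [Finset.mem_product] at hxy hxy'
  have hx := mem_Rf.1 hxy.1
  have hy := mem_Rf.1 hxy.2
  have hx' := mem_Rf.1 hxy'.1
  simp only at hx hy hx' heq
  have h1 : x 1 ≤ e := hx.2.2
  have h2 : y 1 ≤ e := hy.2.2
  have h3 : c' ≤ x' 1 := hx'.2.1
  rcases Sym2.eq_iff.1 heq with ⟨h4, _⟩ | ⟨h4, _⟩
  · rw [h4] at h3
    omega
  · rw [h4] at h3
    omega

end Pool.Agent.H98.P2
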