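import Pool.Agent.H98.P2.Bas
import Pool.Agent.H75.BK.Main

/-!
# Module LocU: local uniqueness

For fixed `m`, the event `A n` that two vertices `u, u'` of `Bx 0 m` are both connected to the sphere of radius `n` inside the box `Bx 0 n` but not to
each other inside `Bx 0 n` has probability tending to `0`. If `A n` happens for infinitely many `n`, then (pigeonhole, finitely many pairs) one
pair `u, u'` works for infinitely many `n`; both have infinite clusters (points at distance `n` for unboundedly many `n`), by `uniq`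
(`Pool/Agent/H75/BK/Main.lean`) they are connected almost surely, by a path which is contained in `Bx 0 n` for large `n`: contradiction. So
almost surely `A n` happens only finitely often; `A n` is measurable (depends on finitely many elements: `cn_congr`, `Rc_box`), the
decreasing sets `⋃ k ≥ n, A k` have measure tending to the measure of the limsup, `0` (`tendsto_measure_iInter_atTop` or
`measure_limsup_atTop_eq_zero`-type lemma), hence `P(A n) → 0`. A walk of `Gr κ ω` between `u` and `u'` visits finitely many vertices.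
-/

set_option autoImplicit false

open MeasureTheory Filter Topology
open Pool.Agent.H17.IIC Pool.Agent.H41.QC Pool.Agent.H47.GM

namespace Pool.Agent.H98.P2

private lemma locu_reach {κ : Kind} {ω : El 2 → Bool} {D : Set (V 2)} {x y : V 2}
    (h : Cn κ ω D x y) : (Gr κ ω).Reachable x y := by
  unfold Cn at h
  induction h with
  | refl => exact SimpleGraph.Reachable.refl x
  | tail _ hs ih => exact ih.trans hs.1.reachable

private lemma locu_walk {κ : Kind} {ω : El 2 → Bool} {D : Set (V 2)} :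
    ∀ {x y : V 2} (w : (Gr κ ω).Walk x y), (∀ v ∈ w.support, v ∈ D) → Cn κ ω D x y
  | _, _, .nil => fun _ => Cn.refl _
  | _, _, .cons h w => fun hD => by
    have h1 := hD _ (SimpleGraph.Walk.start_mem_support _)
    have h2 : ∀ v ∈ w.support, v ∈ D := fun v hv => hD v (by
      rw [SimpleGraph.Walk.support_cons]; exact List.mem_cons_of_mem _ hv)
    have h3 := h2 _ (SimpleGraph.Walk.start_mem_support _)
    exact Relation.ReflTransGen.head ⟨h, h1, h3⟩ (locu_walk w h2)

private lemma locu_bdd {S : Set (V 2)} (hS : S.Finite) :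
    ∃ N : ℕ, ∀ y ∈ S, ∀ i, |y i| < (N : ℤ) := by
  obtain ⟨B, hB⟩ := (hS.image (fun y : V 2 => |y 0| + |y 1|)).bddAbove
  refine ⟨B.toNat + 1, fun y hy i => ?_⟩
  have h1 : |y 0| + |y 1| ≤ B := hB ⟨y, hy, rfl⟩
  have h2 : |y i| ≤ |y 0| + |y 1| := by
    fin_cases i
    · simp
    · simp
  have h3 := Int.self_le_toNat B
  push_cast
  linarith

private def locu_P (κ : Kind) (ω : El 2 → Bool) (u u' : V 2) (n : ℕ) : Prop :=
  (∃ y ∈ Bx (0 : V 2) n, (∃ i, |y i| = (n : ℤ)) ∧ Cn κ ω (Bx (0 : V 2) n : Set (V 2)) u y) ∧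
  (∃ y ∈ Bx (0 : V 2) n, (∃ i, |y i| = (n : ℤ)) ∧ Cn κ ω (Bx (0 : V 2) n : Set (V 2)) u' y) ∧
  ¬ Cn κ ω (Bx (0 : V 2) n : Set (V 2)) u u'

private lemma locu_fin {κ : Kind} {ω : El 2 → Bool} {u : V 2}
    (h : ¬ {z | (Gr κ ω).Reachable u z}.Infinite) : ∀ᶠ n : ℕ in atTop,
    ¬ ∃ y ∈ Bx (0 : V 2) n, (∃ i, |y i| = (n : ℤ)) ∧ Cn κ ω (Bx (0 : V 2) n : Set (V 2)) u y := by
  rw [Set.not_infinite] at h
  obtain ⟨N, hN⟩ := locu_bdd h
  filter_upwards [eventually_ge_atTop N] with n hn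
  rintro ⟨y, -, ⟨i, hi⟩, hy⟩
  have h1 := hN y (locu_reach hy) i
  rw [hi] at h1
  have : (N : ℤ) ≤ n := by exact_mod_cast hn
  linarith

private lemma locu_ev {κ : Kind} {ω : El 2 → Bool}
    (hω : ∀ x y : V 2, {z | (Gr κ ω).Reachable x z}.Infinite →
      {z | (Gr κ ω).Reachable y z}.Infinite → (Gr κ ω).Reachable x y) (u u' : V 2) :
    ∀ᶠ n : ℕ in atTop, ¬ locu_P κ ω u u' n := by
  by_cases h1 : {z | (Gr κ ω).Reachable u z}.Infinite
  · by_cases h2 : {z | (Gr κ ω).Reachable u' z}.Infinite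
    · obtain ⟨w⟩ := hω u u' h1 h2
      obtain ⟨N, hN⟩ := locu_bdd (S := {v | v ∈ w.support}) (List.finite_toSet _)
      filter_upwards [eventually_ge_atTop N] with n hn
      rintro ⟨-, -, h3⟩
      apply h3
      apply locu_walk w
      intro v hv
      rw [Finset.mem_coe, mem_Bx]
      intro i
      have h4 := hN v hv i
      have : (N : ℤ) ≤ n := by exact_mod_cast hn
      rw [Pi.zero_apply, sub_zero]
      linarith
    · filter_upwards [locu_fin h2] with n hn
      exact fun h => hn h.2.1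
  · filter_upwards [locu_fin h1] with n hn
    exact fun h => hn h.1

private lemma locu_on (κ : Kind) (m n : ℕ) : On (Ef (-n) n (-n) n : Set (El 2))
    {ω | ∃ u ∈ Bx (0 : V 2) m, ∃ u' ∈ Bx (0 : V 2) m, locu_P κ ω u u' n} := by
  intro ω ω' h
  have hc : ∀ x y : V 2, Cn κ ω (Bx (0 : V 2) n : Set (V 2)) x y ↔
      Cn κ ω' (Bx (0 : V 2) n : Set (V 2)) x y := by
    intro x y
    rw [← Rc_box]
    exact cn_congr (fun l hl => h l (Finset.mem_coe.2 hl)) x y
  simp only [Set.mem_ofPred_eq, locu_P, hc]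

theorem locU (κ : Kind) (p : unitInterval) (m : ℕ) {η : ℝ} (hη : 0 < η) : ∀ᶠ n : ℕ in atTop,
    (prodBern (El 2) p).real {ω | ∃ u ∈ Bx (0 : V 2) m, ∃ u' ∈ Bx (0 : V 2) m,
      (∃ y ∈ Bx (0 : V 2) n, (∃ i, |y i| = (n : ℤ)) ∧ Cn κ ω (Bx (0 : V 2) n : Set (V 2)) u y) ∧
      (∃ y ∈ Bx (0 : V 2) n, (∃ i, |y i| = (n : ℤ)) ∧ Cn κ ω (Bx (0 : V 2) n : Set (V 2)) u' y) ∧
      ¬ Cn κ ω (Bx (0 : V 2) n : Set (V 2)) u u'} ≤ η := by
  set A : ℕ → Set (El 2 → Bool) := fun n =>
    {ω | ∃ u ∈ Bx (0 : V 2) m, ∃ u' ∈ Bx (0 : V 2) m, locu_P κ ω u u' n} with hA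
  have hmeas : ∀ n, MeasurableSet (A n) := fun n => (locu_on κ m n).measurableSet
  have hae : ∀ᵐ ω ∂(prodBern (El 2) p), ∀ᶠ n : ℕ in atTop,
      (ω ∈ A n ↔ ω ∈ (∅ : Set (El 2 → Bool))) := by
    filter_upwards [Pool.Agent.H75.BK.uniq κ 2 p] with ω hω
    have h1 : ∀ᶠ n : ℕ in atTop, ∀ q ∈ Bx (0 : V 2) m ×ˢ Bx (0 : V 2) m,
        ¬ locu_P κ ω q.1 q.2 n := by
      rw [Filter.eventually_all_finset]
      intro q _
      exact locu_ev hω q.1 q.2
    filter_upwards [h1] with n hn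
    constructor
    · rintro ⟨u, hu, u', hu', h⟩
      exact absurd h (hn (u, u') (Finset.mem_product.2 ⟨hu, hu'⟩))
    · intro h
      exact absurd h (Set.notMem_empty ω)
  have ht := tendsto_measure_of_ae_tendsto_indicator_of_isFiniteMeasure (μ := prodBern (El 2) p)
    atTop MeasurableSet.empty hmeas hae
  rw [measure_empty] at ht
  have ht' : Tendsto (fun n => (prodBern (El 2) p).real (A n)) atTop (𝓝 0) := by
    exact (ENNReal.tendsto_toReal ENNReal.zero_ne_top).comp ht
  exact ht'.eventually_le_const hη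

end Pool.Agent.H98.P2
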