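import Mathlib

/-!
# Module Scale: a scale at which the median height at most doubles (natural numbers only)

Otherwise `2 α(n) < α(⌈3n/2⌉)` for all `n ≥ m = max n₀ n₁ 1`. With `m₀ = m`, `m_(j+1) = (3 m_j + 1) / 2` one has `2 m_(j+1) ≤ 3 m_j + 1`, so
`(m_j + 1) 2^j ≤ 3^j (m + 1)`, and `2^j ≤ α(m_j) ≤ m_j`. So `4^j ≤ 3^j (m+1)` for all `j`, impossible
(e.g. `(4/3)^j → ∞`, or `4^j ≥ 3^j (1 + j/3)` by Bernoulli).
-/

set_option autoImplicit false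

open Filter Topology

namespace Pool.Agent.H98.P2

theorem scale (α : ℕ → ℕ) (h : ∀ n, α n ≤ n) (n₀ : ℕ) (h1 : ∀ n, n₀ ≤ n → 1 ≤ α n) (n₁ : ℕ) :
    ∃ n, n₁ ≤ n ∧ α ((3 * n + 1) / 2) ≤ 2 * α n := by
  by_contra hcon
  push Not at hcon
  set m : ℕ := max n₀ n₁ with hm
  set s : ℕ → ℕ := fun j => (fun x => (3 * x + 1) / 2)^[j] m with hs
  have hs0 : s 0 = m := rfl
  have hs1 : ∀ j, s (j + 1) = (3 * s j + 1) / 2 := fun j => by
    simp only [hs, Function.iterate_succ_apply']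
  have hge : ∀ j, m ≤ s j := by
    intro j
    induction j with
    | zero => rw [hs0]
    | succ j ih => rw [hs1]; omega
  have hpow : ∀ j, 2 ^ j ≤ α (s j) := by
    intro j
    induction j with
    | zero =>
      rw [hs0, pow_zero]
      exact h1 m (le_max_left _ _)
    | succ j ih =>
      have h2 := hcon (s j) ((le_max_right n₀ n₁).trans (hge j))
      rw [hs1, pow_succ]
      omega
  have hub : ∀ j, (s j + 1) * 2 ^ j ≤ 3 ^ j * (m + 1) := by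
    intro j
    induction j with
    | zero => rw [hs0]; simp
    | succ j ih =>
      have h2 : (s (j + 1) + 1) * 2 ≤ 3 * (s j + 1) := by rw [hs1]; omega
      calc (s (j + 1) + 1) * 2 ^ (j + 1) = ((s (j + 1) + 1) * 2) * 2 ^ j := by ring
        _ ≤ (3 * (s j + 1)) * 2 ^ j := Nat.mul_le_mul_right _ h2
        _ = 3 * ((s j + 1) * 2 ^ j) := by ring
        _ ≤ 3 * (3 ^ j * (m + 1)) := Nat.mul_le_mul_left _ ih
        _ = 3 ^ (j + 1) * (m + 1) := by ring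
  have hj := hub (3 * (m + 1))
  have h2 : 2 ^ (3 * (m + 1)) ≤ s (3 * (m + 1)) + 1 :=
    ((hpow _).trans (h _)).trans (Nat.le_succ _)
  have h3 : (4 : ℕ) ^ (3 * (m + 1)) ≤ 3 ^ (3 * (m + 1)) * (m + 1) := by
    calc (4 : ℕ) ^ (3 * (m + 1)) = 2 ^ (3 * (m + 1)) * 2 ^ (3 * (m + 1)) := by
          rw [← mul_pow]; norm_num
      _ ≤ (s (3 * (m + 1)) + 1) * 2 ^ (3 * (m + 1)) := Nat.mul_le_mul_right _ h2
      _ ≤ _ := hj
  have h4 : (4 : ℝ) ^ (3 * (m + 1)) ≤ 3 ^ (3 * (m + 1)) * (m + 1) := by exact_mod_cast h3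
  have h5 : 1 + ((3 * (m + 1) : ℕ) : ℝ) * (1 / 3) ≤ (1 + 1 / 3 : ℝ) ^ (3 * (m + 1)) :=
    one_add_mul_le_pow (by norm_num) _
  have h6 : (1 + 1 / 3 : ℝ) ^ (3 * (m + 1)) * 3 ^ (3 * (m + 1)) = 4 ^ (3 * (m + 1)) := by
    rw [← mul_pow]
    norm_num
  have h7 : (0 : ℝ) < 3 ^ (3 * (m + 1)) := by positivity
  have h8 : (1 + 1 / 3 : ℝ) ^ (3 * (m + 1)) ≤ m + 1 := by
    rw [← h6] at h4
    nlinarith
  push_cast at h5
  linarith

end Pool.Agent.H98.P2
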