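import Pool.Agent.H98.P2.LocU
import Pool.Agent.H47.GM.Quad

/-!
# Module Star: the star event has probability tending to one

`quad_many` with `K = 1` and `η/17`: there is `m` such that for large `n` each of the eight sets `Un κ ω m n ∩ Qd n i τ` is nonempty with
probability `≥ 1 - η/17`; `locU` for `m + 1`. On the intersection: for each `(i, τ)` there are `y ∈ Qd n i τ` and `u ∈ Bx 0 m` with
`Rch κ ω (Bx 0 n) u y` (`QuadSymm_memUn`); `u ≠ y` because `n > m + 1`; the first step of the `Rch` path goes to some `u₁ ∈ Bx 0 (m+1)`, and from `u₁` on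
all vertices were landed on, so (also for site percolation) consecutive vertices are adjacent in `Gr κ ω`: `Cn κ ω (Bx 0 n) u₁ y`. By local
uniqueness all the `u₁` are connected inside the box; `c` = one of them. `Rc_box`. `star_HE`: `Qd n 0 τ` with `τ 0 = false` (left side) and with
`τ 0 = true, τ 1 = true` (upper half of the right side). `star_VC`: `Qd n 1 τ` with both values of `τ 1`. Then `fl_mono`.
-/

set_option autoImplicit false

open MeasureTheory Filter Topology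
open Pool.Agent.H17.IIC Pool.Agent.H41.QC Pool.Agent.H47.GM

namespace Pool.Agent.H98.P2

variable {κ : Kind} {p : unitInterval}

private lemma star_rch {ω : El 2 → Bool} {D : Set (V 2)} {u y : V 2} (h : Rch κ ω D u y) :
    u = y ∨ (y ∈ D ∧ (κ = .site → ω s(y, y) = true) ∧ ∃ u₁, LatAdj u u₁ ∧ u₁ ∈ D ∧ Cn κ ω D u₁ y) := by
  unfold Rch at h
  induction h with
  | refl => exact Or.inl rfl
  | @tail b c hb hs ih =>
    obtain ⟨h1, h2, h3⟩ := hs
    right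
    refine ⟨h2, ?_, ?_⟩
    · intro hκ
      subst hκ
      exact h3
    · rcases ih with rfl | ⟨hbD, hbs, u₁, hu1, hu1D, hc⟩
      · exact ⟨c, h1, h2, Cn.refl c⟩
      · refine ⟨u₁, hu1, hu1D, hc.trans (Relation.ReflTransGen.single ⟨⟨h1, ?_⟩, hbD, h2⟩)⟩
        cases κ
        · exact h3
        · exact ⟨hbs rfl, h3⟩

private lemma star_get {ω : El 2 → Bool} {m n : ℕ} (hmn : m < n) {i : Fin 2} {τ : Fin 2 → Bool}
    (h : 1 ≤ (Un κ ω m n ∩ Qd n i τ).card) :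
    ∃ u₁ ∈ Bx (0 : V 2) (m + 1), u₁ ∈ Bx (0 : V 2) n ∧ ∃ y ∈ Bx (0 : V 2) n, (∃ j, |y j| = (n : ℤ)) ∧ y ∈ Qd n i τ ∧
      Cn κ ω (Bx (0 : V 2) n : Set (V 2)) u₁ y := by
  classical
  obtain ⟨y, hy⟩ := Finset.card_pos.1 h
  rw [Finset.mem_inter, QuadSymm_memUn] at hy
  obtain ⟨⟨hyb, hyj, u, hu, hr⟩, hyq⟩ := hy
  rcases star_rch hr with rfl | ⟨_, _, u₁, hadj, hu1, hc⟩
  · exfalso
    obtain ⟨j, hj⟩ := hyj
    have h1 := mem_Bx.1 hu j
    simp only [Pi.zero_apply, sub_zero] at h1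
    rw [hj] at h1
    have h2 : n ≤ m := by exact_mod_cast h1
    omega
  · refine ⟨u₁, ?_, hu1, y, hyb, hyj, hyq, hc⟩
    rw [mem_Bx] at hu ⊢
    intro i
    have h1 := hu i
    have h2 := LatAdj.abs_le hadj i
    simp only [Pi.zero_apply, sub_zero] at h1 ⊢
    push_cast
    rw [abs_le] at h1 h2 ⊢
    constructor <;> linarith

theorem star (κ : Kind) (p : unitInterval) (hp1 : (p : ℝ) < 1) (hθ : 0 < theta κ 2 p) {η : ℝ} (hη : 0 < η) :
    ∀ᶠ n : ℕ in atTop, Fl p (Star κ n) ≤ η := by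
  classical
  obtain ⟨m, hm, hq⟩ := quad_many κ (by norm_num : 1 ≤ 2) p hp1 hθ (by positivity : 0 < η / 17)
  filter_upwards [hq 1, locU κ p (m + 1) (by positivity : 0 < η / 17), eventually_gt_atTop m] with n hn hL hmn
  set A : Fin 2 × (Fin 2 → Bool) → Set (El 2 → Bool) := fun q => {ω | ¬ 1 ≤ (Un κ ω m n ∩ Qd n q.1 q.2).card} with hA
  set B : Set (El 2 → Bool) := {ω | ∃ u ∈ Bx (0 : V 2) (m + 1), ∃ u' ∈ Bx (0 : V 2) (m + 1),
      (∃ y ∈ Bx (0 : V 2) n, (∃ i, |y i| = (n : ℤ)) ∧ Cn κ ω (Bx (0 : V 2) n : Set (V 2)) u y) ∧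
      (∃ y ∈ Bx (0 : V 2) n, (∃ i, |y i| = (n : ℤ)) ∧ Cn κ ω (Bx (0 : V 2) n : Set (V 2)) u' y) ∧
      ¬ Cn κ ω (Bx (0 : V 2) n : Set (V 2)) u u'} with hB
  have hsub : {ω : El 2 → Bool | ¬ Star κ n ω} ⊆ (⋃ q ∈ (Finset.univ : Finset (Fin 2 × (Fin 2 → Bool))), A q) ∪ B := by
    intro ω hω
    by_contra hcon
    rw [Set.mem_union, not_or] at hcon
    obtain ⟨hcA, hcB⟩ := hcon
    apply hω
    have h1 : ∀ (i : Fin 2) (τ : Fin 2 → Bool), 1 ≤ (Un κ ω m n ∩ Qd n i τ).card := by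
      intro i τ
      by_contra hc
      apply hcA
      rw [Set.mem_iUnion₂]
      exact ⟨(i, τ), Finset.mem_univ _, hc⟩
    have h2 : ∀ u ∈ Bx (0 : V 2) (m + 1), ∀ u' ∈ Bx (0 : V 2) (m + 1),
        (∃ y ∈ Bx (0 : V 2) n, (∃ i, |y i| = (n : ℤ)) ∧ Cn κ ω (Bx (0 : V 2) n : Set (V 2)) u y) →
        (∃ y ∈ Bx (0 : V 2) n, (∃ i, |y i| = (n : ℤ)) ∧ Cn κ ω (Bx (0 : V 2) n : Set (V 2)) u' y) →
        Cn κ ω (Bx (0 : V 2) n : Set (V 2)) u u' := by
      intro u hu u' hu' h3 h4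
      by_contra h5
      exact hcB ⟨u, hu, u', hu', h3, h4, h5⟩
    obtain ⟨c, hc1, hcn, y0, hy0, hyj0, _, hcy0⟩ := star_get hmn (h1 0 (fun _ => true))
    unfold Star
    rw [Rc_box]
    refine ⟨c, hcn, fun i τ => ?_⟩
    obtain ⟨u₁, hu1, _, y, hy, hyj, hyq, hcy⟩ := star_get hmn (h1 i τ)
    exact ⟨y, hyq, (h2 c hc1 u₁ hu1 ⟨y0, hy0, hyj0, hcy0⟩ ⟨y, hy, hyj, hcy⟩).trans hcy⟩
  have hAq : ∀ q : Fin 2 × (Fin 2 → Bool), (prodBern (El 2) p).real (A q) ≤ η / 17 := by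
    intro q
    obtain ⟨Λ, hΛ⟩ := Quad_dep (d := 2) κ m n 1 (Qd n q.1 q.2)
    have h1 := probReal_compl_eq_one_sub (μ := prodBern (El 2) p) hΛ.measurableSet
    have h2 : A q = {ω : El 2 → Bool | 1 ≤ (Un κ ω m n ∩ Qd n q.1 q.2).card}ᶜ := rfl
    rw [h2, h1]
    have := hn q.1 q.2
    linarith
  have hcard : (Finset.univ : Finset (Fin 2 × (Fin 2 → Bool))).card = 8 := by
    simp [Fintype.card_prod]
  calc Fl p (Star κ n) ≤ (prodBern (El 2) p).real ((⋃ q ∈ (Finset.univ : Finset (Fin 2 × (Fin 2 → Bool))), A q) ∪ B) := by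
        unfold Fl
        exact measureReal_mono hsub (measure_ne_top _ _)
    _ ≤ (prodBern (El 2) p).real (⋃ q ∈ (Finset.univ : Finset (Fin 2 × (Fin 2 → Bool))), A q)
        + (prodBern (El 2) p).real B := measureReal_union_le _ _
    _ ≤ (∑ q ∈ (Finset.univ : Finset (Fin 2 × (Fin 2 → Bool))), (prodBern (El 2) p).real (A q))
        + (prodBern (El 2) p).real B := by
        gcongr
        exact measureReal_biUnion_finset_le _ _
    _ ≤ (∑ _q ∈ (Finset.univ : Finset (Fin 2 × (Fin 2 → Bool))), η / 17) + η / 17 := by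
        gcongr with q _
        exact hAq q
    _ ≤ η := by
        rw [Finset.sum_const, hcard, nsmul_eq_mul]
        push_cast
        linarith

private lemma star_two {n : ℕ} {ω : El 2 → Bool} (h : Star κ n ω) (i j : Fin 2) (τ τ' : Fin 2 → Bool) :
    ∃ y ∈ Qd n i τ, ∃ y' ∈ Qd n j τ', Cn κ ω (Rc (-n) n (-n) n) y y' := by
  obtain ⟨c, _, hc⟩ := h
  obtain ⟨y, hy, h1⟩ := hc i τ
  obtain ⟨y', hy', h2⟩ := hc j τ'
  exact ⟨y, hy, y', hy', h1.symm.trans h2⟩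

private lemma star_mem {n : ℕ} {i : Fin 2} {τ : Fin 2 → Bool} {y : V 2} (h : y ∈ Qd n i τ) :
    y ∈ Rc (-n) n (-n) n := by
  rw [Rc_box]
  exact (QuadSymm_memQd.1 h).1

theorem star_HE {n : ℕ} {ω : El 2 → Bool} (h : Star κ n ω) : HE κ n 0 n ω := by
  obtain ⟨y, hy, y', hy', hc⟩ := star_two h 0 0 (fun _ => false) (fun _ => true)
  obtain ⟨_, h1, _⟩ := QuadSymm_memQd.1 hy
  obtain ⟨_, h3, h4⟩ := QuadSymm_memQd.1 hy'
  have h5 := h4 1 (by decide)
  have hm := star_mem hy'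
  simp [sg] at h1 h3 h5
  refine ⟨y, y', star_mem hy, hm, by linarith, h3, h5, hm.2.2, hc⟩

theorem star_VC {n : ℕ} {ω : El 2 → Bool} (h : Star κ n ω) : VC κ (-n) n (-n) n ω := by
  obtain ⟨y, hy, y', hy', hc⟩ := star_two h 1 1 (fun _ => false) (fun _ => true)
  obtain ⟨_, h1, _⟩ := QuadSymm_memQd.1 hy
  obtain ⟨_, h3, _⟩ := QuadSymm_memQd.1 hy'
  have hm := star_mem hy'
  simp [sg] at h1 h3
  exact ⟨y, y', star_mem hy, hm, by linarith, h3, hc⟩

end Pool.Agent.H98.P2
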