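import Pool.Agent.H98.P2.WideD
import Pool.Agent.H98.P2.Inv

/-!
# Module Wide: crossing of a rectangle which is longer than high

`wideD`; the events `h1`, `h2` there fail with probability `≤ ε`: `HE κ N 0 β` translated by `(n - N, -α)` (`fl_HG_shift`) is
`HG κ (n-2N) n (-α-N) (N-α) (-α) (β-α)`, and `β - α ≤ α` (`fl_mono`); `h2` is its reflection (`fl_HL` with `a = n-2N`, `b = n`). The conclusion is translated to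
the origin (`fl_HC_shift`): width `4N - 2n`, height `2n + N`. `fl_two` twice.
-/

set_option autoImplicit false

open MeasureTheory Filter Topology
open Pool.Agent.H17.IIC Pool.Agent.H41.QC Pool.Agent.H47.GM

namespace Pool.Agent.H98.P2

variable {κ : Kind} {p : unitInterval}

theorem wide (κ : Kind) (p : unitInterval) {n N α β : ℕ} (hnN : n ≤ N) (hN : N ≤ 2 * n) (hα : α ≤ n)
    (hβ : β ≤ 2 * α) {ε : ℝ} (hX : Fl p (XX κ n α) ≤ ε) (hE : Fl p (HE κ N 0 β) ≤ ε) :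
    Fl p (HC κ 0 (4 * N - 2 * n) 0 (2 * n + N)) ≤ 3 * ε := by
  have t1 : Fl p (HG κ ((n : ℤ) - 2 * N) n (-(α : ℤ) - N) ((N : ℤ) - α) (-(α : ℤ)) α) ≤ ε := by
    have h1 := fl_HG_shift κ p (-(N : ℤ)) N (-(N : ℤ)) N 0 β ((n : ℤ) - N) (-(α : ℤ))
    have e1 : -(N : ℤ) + ((n : ℤ) - N) = (n : ℤ) - 2 * N := by ring
    have e2 : (N : ℤ) + ((n : ℤ) - N) = n := by ring
    have e3 : -(N : ℤ) + (-(α : ℤ)) = -(α : ℤ) - N := by ring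
    have e4 : (N : ℤ) + (-(α : ℤ)) = (N : ℤ) - α := by ring
    have e5 : (0 : ℤ) + (-(α : ℤ)) = -(α : ℤ) := by ring
    rw [e1, e2, e3, e4, e5] at h1
    have h2 : Fl p (HG κ ((n : ℤ) - 2 * N) n (-(α : ℤ) - N) ((N : ℤ) - α) (-(α : ℤ)) α) ≤
        Fl p (HG κ ((n : ℤ) - 2 * N) n (-(α : ℤ) - N) ((N : ℤ) - α) (-(α : ℤ)) ((β : ℤ) + (-(α : ℤ)))) := by
      refine fl_mono ?_
      rintro ω ⟨u, v, h1, h2, h3, h4, h5, h6, h7⟩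
      exact ⟨u, v, h1, h2, h3, h4, h5, by omega, h7⟩
    rw [h1] at h2
    exact h2.trans hE
  have t2 : Fl p (HL κ (-(n : ℤ)) (2 * (N : ℤ) - n) (-(α : ℤ) - N) ((N : ℤ) - α) (-(α : ℤ)) α) ≤ ε := by
    have h1 := fl_HL κ p ((n : ℤ) - 2 * N) n (-(α : ℤ) - N) ((N : ℤ) - α) (-(α : ℤ)) α
    have e1 : -((n : ℤ) - 2 * N) = 2 * (N : ℤ) - n := by ring
    rw [e1] at h1
    rw [h1]
    exact t1
  have t3 := fl_HC_shift κ p 0 (4 * (N : ℤ) - 2 * n) 0 (2 * (n : ℤ) + N) ((n : ℤ) - 2 * N) (-(α : ℤ) - N)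
  have e1 : (0 : ℤ) + ((n : ℤ) - 2 * N) = (n : ℤ) - 2 * N := by ring
  have e2 : 4 * (N : ℤ) - 2 * n + ((n : ℤ) - 2 * N) = 2 * (N : ℤ) - n := by ring
  have e3 : (0 : ℤ) + (-(α : ℤ) - N) = -(α : ℤ) - N := by ring
  have e4 : 2 * (n : ℤ) + N + (-(α : ℤ) - N) = 2 * (n : ℤ) - α := by ring
  rw [e1, e2, e3, e4] at t3
  rw [← t3]
  have t4 : Fl p (HC κ ((n : ℤ) - 2 * N) (2 * (N : ℤ) - n) (-(α : ℤ) - N) (2 * (n : ℤ) - α)) ≤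
      Fl p (XX κ n α) + Fl p (fun ω => HG κ ((n : ℤ) - 2 * N) n (-(α : ℤ) - N) ((N : ℤ) - α) (-(α : ℤ)) α ω ∧
        HL κ (-(n : ℤ)) (2 * (N : ℤ) - n) (-(α : ℤ) - N) ((N : ℤ) - α) (-(α : ℤ)) α ω) :=
    fl_two fun ω h1 h2 => wideD hnN hN hα h1 h2.1 h2.2
  have t5 : Fl p (fun ω => HG κ ((n : ℤ) - 2 * N) n (-(α : ℤ) - N) ((N : ℤ) - α) (-(α : ℤ)) α ω ∧
        HL κ (-(n : ℤ)) (2 * (N : ℤ) - n) (-(α : ℤ) - N) ((N : ℤ) - α) (-(α : ℤ)) α ω) ≤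
      Fl p (HG κ ((n : ℤ) - 2 * N) n (-(α : ℤ) - N) ((N : ℤ) - α) (-(α : ℤ)) α) +
      Fl p (HL κ (-(n : ℤ)) (2 * (N : ℤ) - n) (-(α : ℤ) - N) ((N : ℤ) - α) (-(α : ℤ)) α) :=
    fl_two fun ω h1 h2 => ⟨h1, h2⟩
  linarith

end Pool.Agent.H98.P2
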