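import Pool.Agent.H98.P2.Inv
import Pool.Agent.H98.P2.Meet

/-!
# Module XEv: the X event

Four crossings: `HE κ n α n` (left side to the right side at height `≥ α`), its reflection in the horizontal axis `HG κ (-n) n (-n) n (-n) (-α)`
(`fl_flip`), and the reflections in the vertical axis `HL κ (-n) n (-n) n α n`, `HL κ (-n) n (-n) n (-n) (-α)` (`fl_HL`), each fails with
probability `≤ ε`. A vertical crossing of the box meets all four (`meet_HV` with the same box; for `HL` reverse the path), so they are all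
connected inside the box: `XX κ n α` holds. `fl_two` four times.
-/

set_option autoImplicit false

open MeasureTheory Filter Topology
open Pool.Agent.H17.IIC Pool.Agent.H41.QC Pool.Agent.H47.GM

namespace Pool.Agent.H98.P2

variable {κ : Kind} {p : unitInterval}

theorem xx (κ : Kind) (p : unitInterval) (n α : ℕ) {ε : ℝ} (h1 : Fl p (HE κ n α n) ≤ ε)
    (h2 : Fl p (VC κ (-n) n (-n) n) ≤ ε) : Fl p (XX κ n α) ≤ 5 * ε := by
  have e1 : Fl p (HG κ (-n) n (-n) n α n) ≤ ε := h1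
  have e2 : Fl p (HG κ (-n) n (-n) n (-n) (-α)) ≤ ε := by
    have h := fl_flip κ p (-n) n (-n) n α n
    rw [neg_neg] at h
    rw [h]
    exact e1
  have e3 : Fl p (HL κ (-n) n (-n) n α n) ≤ ε := by
    have h := fl_HL κ p (-n) n (-n) n α n
    rw [neg_neg] at h
    rw [h]
    exact e1
  have e4 : Fl p (HL κ (-n) n (-n) n (-n) (-α)) ≤ ε := by
    have h := fl_HL κ p (-n) n (-n) n (-n) (-α)
    rw [neg_neg] at h
    rw [h]
    exact e2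
  -- combine the five events
  have key : ∀ ω, (HG κ (-n) n (-n) n α n ω ∧ HG κ (-n) n (-n) n (-n) (-α) ω) ∧
      (HL κ (-n) n (-n) n α n ω ∧ HL κ (-n) n (-n) n (-n) (-α) ω) → VC κ (-n) n (-n) n ω → XX κ n α ω := by
    rintro ω ⟨⟨⟨u₁, v₁, hu₁, hv₁, hu₁a, hv₁b, hs₁, ht₁, hc₁⟩, ⟨u₂, v₂, hu₂, hv₂, hu₂a, hv₂b, hs₂, ht₂, hc₂⟩⟩,
      ⟨⟨u₃, v₃, hu₃, hv₃, hu₃b, hv₃a, hs₃, ht₃, hc₃⟩, ⟨u₄, v₄, hu₄, hv₄, hu₄b, hv₄a, hs₄, ht₄, hc₄⟩⟩⟩
      ⟨u, v, hu, hv, huc, hve, hc⟩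
    have m1 := meet_HV (le_refl _) (le_refl _) (le_refl _) (le_refl _) hu₁ hu₁a hv₁b hc₁ hu huc hve hc
    have m2 := meet_HV (le_refl _) (le_refl _) (le_refl _) (le_refl _) hu₂ hu₂a hv₂b hc₂ hu huc hve hc
    have m3 := meet_HV (le_refl _) (le_refl _) (le_refl _) (le_refl _) hv₃ hv₃a hu₃b hc₃.symm hu huc hve hc
    have m4 := meet_HV (le_refl _) (le_refl _) (le_refl _) (le_refl _) hv₄ hv₄a hu₄b hc₄.symm hu huc hve hc
    rw [Set.union_self] at m1 m2 m3 m4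
    have c1 : Cn κ ω (Rc (-n) n (-n) n) v₁ u := hc₁.symm.trans m1
    have c2 : Cn κ ω (Rc (-n) n (-n) n) v₂ u := hc₂.symm.trans m2
    exact ⟨v₁, v₂, v₃, v₄, ⟨hv₁, hv₂, hv₃, hv₄⟩, ⟨hv₁b, hs₁⟩, ⟨hv₂b, ht₂⟩, ⟨hv₃a, hs₃⟩, ⟨hv₄a, ht₄⟩,
      c1.trans c2.symm, c1.trans m3.symm, c1.trans m4.symm⟩
  have t1 := fl_two (p := p) (E := fun ω => HG κ (-n) n (-n) n α n ω ∧ HG κ (-n) n (-n) n (-n) (-α) ω)
    (E₁ := HG κ (-n) n (-n) n α n) (E₂ := HG κ (-n) n (-n) n (-n) (-α)) (fun ω a b => ⟨a, b⟩)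
  have t2 := fl_two (p := p) (E := fun ω => HL κ (-n) n (-n) n α n ω ∧ HL κ (-n) n (-n) n (-n) (-α) ω)
    (E₁ := HL κ (-n) n (-n) n α n) (E₂ := HL κ (-n) n (-n) n (-n) (-α)) (fun ω a b => ⟨a, b⟩)
  have t3 := fl_two (p := p) (E := fun ω => (HG κ (-n) n (-n) n α n ω ∧ HG κ (-n) n (-n) n (-n) (-α) ω) ∧
      (HL κ (-n) n (-n) n α n ω ∧ HL κ (-n) n (-n) n (-n) (-α) ω))
    (E₁ := fun ω => HG κ (-n) n (-n) n α n ω ∧ HG κ (-n) n (-n) n (-n) (-α) ω)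
    (E₂ := fun ω => HL κ (-n) n (-n) n α n ω ∧ HL κ (-n) n (-n) n (-n) (-α) ω) (fun ω a b => ⟨a, b⟩)
  have t4 := fl_two (p := p) key
  linarith

end Pool.Agent.H98.P2
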