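import Pool.Agent.H98.P2.Ext
import Pool.Agent.H98.P2.Wide
import Pool.Agent.H98.P2.XEv
import Pool.Agent.H98.P2.Star
import Pool.Agent.H98.P2.Alpha
import Pool.Agent.H98.P2.Scale

/-!
# Module Long: long crossings have failure probability as small as we like at some scale

Let `ε > 0` be small: `15 * 81 * ε < δ`, `ε ≤ 1`, `ε < (1-p)^4`. By `star` (with `ε ^ 2`) there is `m` such that for `n ≥ m` the star event fails with
probability `≤ ε ^ 2 ≤ ε`; `star_HE`, `star_VC`, `fl_mono`. For `n ≥ m` let `α n` be given by `alpha` (`α n = 0` for `n < m`); `α n ≥ 1` for `n ≥ max m 1` by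
`a_pos` (otherwise `(1-p)^4 ≤ Fl p (HE κ n 0 0) ≤ ε`). `scale` gives `n ≥ max m 8` with `α N ≤ 2 α n`, `N = (3n+1)/2`. `xx`: `Fl p (XX κ n (α n)) ≤ 5 ε`;
`wide` with `5 ε`: `Fl p (HC κ 0 (4N-2n) 0 (2n+N)) ≤ 15 ε`. `ext` with `W = 4N-2n`, `H = 2n+N`, `r = (H+1)/2`, `k = 40`, and `15 ε`: `δ' = W - 2r ≥ n/2 - 1 ≥ n/4`, so
`W + 40 δ' ≥ W + 10 n = 4 H`. `hc_short`: `ff κ p H ≤ 81 * 15 ε < δ`, and `H ≥ 4`.
-/

set_option autoImplicit false

open MeasureTheory Filter Topology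
open Pool.Agent.H17.IIC Pool.Agent.H41.QC Pool.Agent.H47.GM

namespace Pool.Agent.H98.P2

variable {κ : Kind} {p : unitInterval}

theorem exists_long (κ : Kind) (p : unitInterval) (hp1 : (p : ℝ) < 1) (hθ : 0 < theta κ 2 p) {δ : ℝ} (hδ : 0 < δ) :
    ∃ n : ℕ, 4 ≤ n ∧ ff κ p n < δ := by
  -- choice of `ε`
  have hq : 0 < 1 - (p : ℝ) := by linarith
  obtain ⟨ε, hε0, hε1, hεδ, hεp⟩ : ∃ ε : ℝ, 0 < ε ∧ ε ≤ 1 ∧ 81 * (15 * ε) < δ ∧ ε < (1 - (p : ℝ)) ^ 4 := by
    refine ⟨min (min 1 (δ / 2430)) ((1 - (p : ℝ)) ^ 4 / 2), ?_, ?_, ?_, ?_⟩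
    · positivity
    · exact (min_le_left _ _).trans (min_le_left _ _)
    · have := (min_le_left (min 1 (δ / 2430)) ((1 - (p : ℝ)) ^ 4 / 2)).trans (min_le_right _ _)
      linarith
    · have := min_le_right (min 1 (δ / 2430)) ((1 - (p : ℝ)) ^ 4 / 2)
      have h2 : 0 < (1 - (p : ℝ)) ^ 4 := by positivity
      linarith
  have hε2 : ε ^ 2 ≤ ε := by nlinarith
  obtain ⟨m, hm⟩ := eventually_atTop.1 (star κ p hp1 hθ (η := ε ^ 2) (by positivity))
  have hHE : ∀ n, m ≤ n → Fl p (HE κ n 0 n) ≤ ε ^ 2 := fun n hn =>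
    (fl_mono fun ω hω => star_HE hω).trans (hm n hn)
  have hVC : ∀ n, m ≤ n → Fl p (VC κ (-n) n (-n) n) ≤ ε := fun n hn =>
    ((fl_mono fun ω hω => star_VC hω).trans (hm n hn)).trans hε2
  -- median heights
  have hα : ∀ n : ℕ, ∃ α : ℕ, α ≤ n ∧ (m ≤ n → Fl p (HE κ n α n) ≤ ε ∧ Fl p (HE κ n 0 α) ≤ ε) := by
    intro n
    by_cases hn : m ≤ n
    · obtain ⟨α, h1, h2, h3⟩ := alpha κ p hε0.le hε1 n (hHE n hn)
      exact ⟨α, h1, fun _ => ⟨h2, h3⟩⟩
    · exact ⟨0, Nat.zero_le _, fun h => absurd h hn⟩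
  choose α hαn hα' using hα
  have hpos : ∀ n, max m 1 ≤ n → 1 ≤ α n := by
    intro n hn
    by_contra hc
    have h0 : α n = 0 := by omega
    have h1 := (hα' n ((le_max_left _ _).trans hn)).2
    rw [h0] at h1
    have h2 := a_pos κ p ((le_max_right m 1).trans hn)
    have h3 : Fl p (HE κ n 0 0) ≤ ε := h1
    linarith
  obtain ⟨n, hn, hscale⟩ := scale α hαn (max m 1) hpos (max m 8)
  have hnm : m ≤ n := (le_max_left _ _).trans hn
  have hn8 : 8 ≤ n := (le_max_right _ _).trans hn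
  set N : ℕ := (3 * n + 1) / 2 with hN
  have hN1 : 3 * n ≤ 2 * N := by omega
  have hN2 : 2 * N ≤ 3 * n + 1 := by omega
  have hX := xx κ p n (α n) (hα' n hnm).1 (hVC n hnm)
  have hE : Fl p (HE κ N 0 (α N)) ≤ 5 * ε := by
    have := (hα' N (by omega)).2
    linarith
  have hW := wide κ p (n := n) (N := N) (α := α n) (β := α N) (by omega) (by omega) (hαn n) hscale hX hE
  -- longer rectangles
  set H : ℕ := 2 * n + N with hH
  set W : ℕ := 4 * N - 2 * n with hWdef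
  set r : ℕ := (H + 1) / 2 with hr
  have hWz : (W : ℤ) = 4 * N - 2 * n := by
    rw [hWdef, Nat.cast_sub (by omega)]
    push_cast
    ring
  have hHz : (H : ℤ) = 2 * n + N := by rw [hH]; push_cast; ring
  have hW' : Fl p (HC κ 0 W 0 H) ≤ 15 * ε := by
    rw [hWz, hHz]
    linarith
  have hV' : Fl p (VC κ (-r) r (-r) r) ≤ 15 * ε := by
    have := hVC r (by omega)
    linarith
  have hext := ext κ p (W := W) (H := H) (r := r) (by omega) (by omega) hW' hV' 40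
  refine ⟨H, by omega, ?_⟩
  have hle : (4 * (H : ℤ)) ≤ W + (40 : ℕ) * (W - 2 * r) := by
    have h2r : 2 * (r : ℤ) ≤ H + 1 := by
      have : 2 * r ≤ H + 1 := by omega
      exact_mod_cast this
    have a1 : (3 : ℤ) * n ≤ 2 * N := by exact_mod_cast hN1
    have a2 : (8 : ℤ) ≤ n := by exact_mod_cast hn8
    rw [hWz, hHz]
    rw [hHz] at h2r
    push_cast
    linarith
  have hfin : ff κ p H ≤ (2 * (40 : ℕ) + 1) * (15 * ε) :=
    (fl_mono fun ω hω => hc_short (by positivity) hle hω).trans hext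
  push_cast at hfin
  linarith

end Pool.Agent.H98.P2
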