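import Pool.Agent.H98.P2.Bas

/-!
# Module Plan: a left-right path and a bottom-top path of a rectangle meet (pure combinatorics)

Suppose `A ∩ B = ∅`. Parity of crossings, without lists. For a step `x → y` and `z : V 2` let `cr z x y : ZMod 2` be `1` if
`x 1 = y 1 < z 1` and `{x 0, y 0} = {z 0, z 0 + 1}`, else `0` (the step crosses the vertical line `z 0 + 1/2` below `z`).
CLAIM (induction on the path): for every set `A'` and `LP A' u y` there is `N : V 2 → ZMod 2` with
(i) `N (z + (0,1)) = N z` if `z ∉ A'`; (ii) `N (z + (1,0)) = N z + [u ∈ S] + [y ∈ S]`, `S = {w | w 0 = z 0 + 1, w 1 < z 1}`, if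
`z + (1,0) ∉ A'`; (iii) `N z = [u 0 ≤ z 0] + [y 0 ≤ z 0]` if all heights of `A'` are `< z 1`; (iv) `N z = 0` if all heights of `A'` are
`≥ z 1`. Start: `N = 0`; step `y → y'`: add `cr · y y'` ((ii): a step which enters or leaves the column `S` crosses its left side,
its right side, or goes through `z + (1,0)`).
Apply it to `A' = insert (v + (1,0)) A` and the path `u → v → v + (1,0)`. For `z ∈ B` (so `z ∉ A'`, `a ≤ z 0 ≤ b`) the corrections in (ii)
vanish (`u 0 = a`, `(v + (1,0)) 0 = b + 1`), so `N` is constant along the path in `B` (a step of `B` is `± (1,0)` or `± (0,1)`). At `u'` it is `0` by (iv)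
(`u' 1 = c`). At `v'`: `N (v' + (0,1)) = N v'` by (i), and `= 1 + 0` by (iii). Contradiction.
Steps: `LatAdj x y ↔ ∃ s : Step 2, y = x + stepVec s`, `stepVec s = Pi.single s.1 (± 1)`.
-/

set_option autoImplicit false

open MeasureTheory Filter Topology
open Pool.Agent.H17.IIC Pool.Agent.H41.QC Pool.Agent.H47.GM

namespace Pool.Agent.H98.P2

/-- lattice path inside `A` -/
def LP (A : Set (V 2)) (x y : V 2) : Prop :=
  Relation.ReflTransGen (fun a b => LatAdj a b ∧ a ∈ A ∧ b ∈ A) x y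

private def crq (p q : ℤ) (x y : V 2) : ZMod 2 :=
  if x 1 = y 1 ∧ x 1 < q ∧ (x 0 = p ∧ y 0 = p + 1 ∨ x 0 = p + 1 ∧ y 0 = p) then 1 else 0

private def sbl (p q : ℤ) (x : V 2) : ZMod 2 := if x 0 = p ∧ x 1 < q then 1 else 0

private def lft (p : ℤ) (x : V 2) : ZMod 2 := if x 0 ≤ p then 1 else 0

private lemma lat_cases {x y : V 2} (h : LatAdj x y) :
    (x 0 = y 0 ∧ (y 1 = x 1 + 1 ∨ y 1 = x 1 - 1)) ∨ (x 1 = y 1 ∧ (y 0 = x 0 + 1 ∨ y 0 = x 0 - 1)) := by
  obtain ⟨⟨i, b⟩, rfl⟩ := h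
  fin_cases i <;> cases b <;> simp [stepVec, sub_eq_add_neg]

private lemma ne_cases {x z : V 2} (h : x ≠ z) : ¬ (x 0 = z 0 ∧ x 1 = z 1) := by
  rintro ⟨h0, h1⟩
  apply h
  funext i
  fin_cases i
  · exact h0
  · exact h1

private lemma crq_up {x y z : V 2} (hx : x ≠ z) (hy : y ≠ z) :
    crq (z 0) (z 1 + 1) x y = crq (z 0) (z 1) x y := by
  have h1 := ne_cases hx
  have h2 := ne_cases hy
  unfold crq
  refine if_congr ?_ rfl rfl
  omega

private lemma crq_right {x y z : V 2} (h : LatAdj x y) (hx : x ≠ z) (hy : y ≠ z) :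
    crq (z 0) (z 1) x y = crq (z 0 - 1) (z 1) x y + sbl (z 0) (z 1) x + sbl (z 0) (z 1) y := by
  have h1 := ne_cases hx
  have h2 := ne_cases hy
  have h3 := lat_cases h
  unfold crq sbl
  split_ifs <;> first | rfl | (exfalso; omega)

private lemma crq_top {x y : V 2} {p q : ℤ} (h : LatAdj x y) (hx : x 1 < q) (_hy : y 1 < q) :
    crq p q x y = lft p x + lft p y := by
  have h3 := lat_cases h
  unfold crq lft
  split_ifs <;> first | rfl | (exfalso; omega)

private lemma crq_bot {x y : V 2} {p q : ℤ} (hx : q ≤ x 1) : crq p q x y = 0 := by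
  unfold crq
  rw [if_neg]
  omega

private lemma parity {A : Set (V 2)} {u y : V 2} (h : LP A u y) :
    ∃ M : ℤ → ℤ → ZMod 2,
      (∀ z : V 2, z ∉ A → M (z 0) (z 1 + 1) = M (z 0) (z 1)) ∧
      (∀ z : V 2, z ∉ A → M (z 0) (z 1) = M (z 0 - 1) (z 1) + sbl (z 0) (z 1) u + sbl (z 0) (z 1) y) ∧
      (∀ p q : ℤ, (∀ w ∈ A, w 1 < q) → M p q = lft p u + lft p y) ∧
      (∀ p q : ℤ, (∀ w ∈ A, q ≤ w 1) → M p q = 0) := by
  have h2 : (2 : ZMod 2) = 0 := rfl
  unfold LP at h
  induction h with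
  | refl =>
    refine ⟨fun _ _ => 0, fun _ _ => rfl, fun z _ => ?_, fun p q _ => ?_, fun _ _ _ => rfl⟩
    · linear_combination (-(sbl (z 0) (z 1) u)) * h2
    · linear_combination (-(lft p u)) * h2
  | @tail b c hb hs ih =>
    obtain ⟨M, m1, m2, m3, m4⟩ := ih
    obtain ⟨hl, hbA, hcA⟩ := hs
    refine ⟨fun p q => M p q + crq p q b c, fun z hz => ?_, fun z hz => ?_, fun p q hw => ?_, fun p q hw => ?_⟩
    · have e1 := crq_up (x := b) (y := c) (z := z) (fun e => hz (e ▸ hbA)) (fun e => hz (e ▸ hcA))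
      show M (z 0) (z 1 + 1) + crq (z 0) (z 1 + 1) b c = M (z 0) (z 1) + crq (z 0) (z 1) b c
      rw [m1 z hz, e1]
    · have e1 := crq_right (z := z) hl (fun e => hz (e ▸ hbA)) (fun e => hz (e ▸ hcA))
      show M (z 0) (z 1) + crq (z 0) (z 1) b c = M (z 0 - 1) (z 1) + crq (z 0 - 1) (z 1) b c +
        sbl (z 0) (z 1) u + sbl (z 0) (z 1) c
      linear_combination m2 z hz + e1 + (sbl (z 0) (z 1) b) * h2
    · have e1 := crq_top (p := p) hl (hw b hbA) (hw c hcA)
      show M p q + crq p q b c = lft p u + lft p c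
      linear_combination m3 p q hw + e1 + (lft p b) * h2
    · have e1 := crq_bot (p := p) (y := c) (hw b hbA)
      show M p q + crq p q b c = 0
      rw [m4 p q hw, e1, add_zero]

private lemma LP.mem {A : Set (V 2)} {u y : V 2} (h : LP A u y) (hu : u ∈ A) : y ∈ A := by
  rcases Relation.ReflTransGen.cases_tail h with h2 | ⟨c', _, hc'⟩
  · rw [h2]; exact hu
  · exact hc'.2.2

theorem planar {a b c e : ℤ} {A B : Set (V 2)} (hA : A ⊆ Rc a b c e) (hB : B ⊆ Rc a b c e)
    {u v u' v' : V 2} (hu : u ∈ A) (hu0 : u 0 = a) (hv0 : v 0 = b) (h1 : LP A u v)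
    (hu' : u' ∈ B) (hu1 : u' 1 = c) (hv1 : v' 1 = e) (h2 : LP B u' v') : (A ∩ B).Nonempty := by
  by_contra hne
  rw [Set.not_nonempty_iff_eq_empty] at hne
  have hv : v ∈ A := LP.mem h1 hu
  have hv' : v' ∈ B := LP.mem h2 hu'
  have hdis : ∀ z ∈ B, z ∉ A := by
    intro z hz hz'
    have h3 : z ∈ A ∩ B := ⟨hz', hz⟩
    rw [hne] at h3
    exact h3
  set r : V 2 := v + Pi.single 0 1 with hr
  have hr0 : r 0 = b + 1 := by rw [hr, Pi.add_apply, Pi.single_eq_same, hv0]
  have hr1 : r 1 = v 1 := by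
    rw [hr, Pi.add_apply, Pi.single_eq_of_ne (by decide), add_zero]
  have hvr : LatAdj v r := bd_latAdj_single v 0
  have hp : LP (insert r A) u r := by
    refine Relation.ReflTransGen.tail (Relation.ReflTransGen.mono (fun x y hs => ?_) _ _ h1) ⟨hvr, Or.inr hv, Or.inl rfl⟩
    exact ⟨hs.1, Or.inr hs.2.1, Or.inr hs.2.2⟩
  have hzr : ∀ z ∈ B, z ∉ insert r A := by
    rintro z hz (h3 | h3)
    · have h4 := (hB hz).1.2
      rw [h3, hr0] at h4
      omega
    · exact hdis z hz h3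
  obtain ⟨M, m1, m2, m3, m4⟩ := parity hp
  have hcol : ∀ z : V 2, z ∈ B → a < z 0 → M (z 0) (z 1) = M (z 0 - 1) (z 1) := by
    intro z hz hza
    have hzb := (hB hz).1.2
    have e := m2 z (hzr z hz)
    have e1 : sbl (z 0) (z 1) u = 0 := by
      unfold sbl
      rw [if_neg]
      rw [hu0]
      omega
    have e2 : sbl (z 0) (z 1) r = 0 := by
      unfold sbl
      rw [if_neg]
      rw [hr0]
      omega
    rw [e, e1, e2, add_zero, add_zero]
  have hconst : M (v' 0) (v' 1) = M (u' 0) (u' 1) := by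
    have h2' := h2
    unfold LP at h2'
    clear h2 hv1 hv'
    induction h2' with
    | refl => rfl
    | @tail y w hb hs ih =>
      rw [← ih]
      obtain ⟨hl, hyB, hwB⟩ := hs
      have hy := hB hyB
      have hw := hB hwB
      rcases lat_cases hl with ⟨e0, e1 | e1⟩ | ⟨e1, e0 | e0⟩
      · rw [← e0, e1]
        exact m1 y (hzr y hyB)
      · have e := m1 w (hzr w hwB)
        rw [← e, e0, e1, sub_add_cancel]
      · have e := hcol w hwB (by rw [e0]; have := hy.1.1; omega)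
        rw [e, e0, add_sub_cancel_right, e1]
      · have e := hcol y hyB (by have := hw.1.1; omega)
        rw [e, e0, e1]
  have hbot : M (u' 0) (u' 1) = 0 := by
    refine m4 _ _ fun w hw => ?_
    rw [hu1]
    rcases hw with rfl | hw
    · rw [hr1]
      exact (hA hv).2.1
    · exact (hA hw).2.1
  have htop : M (v' 0) (v' 1) = 1 := by
    rw [← m1 v' (hzr v' hv'), m3 (v' 0) (v' 1 + 1) fun w hw => ?_]
    · unfold lft
      rw [if_pos (by rw [hu0]; exact (hB hv').1.1), if_neg (by rw [hr0]; have := (hB hv').1.2; omega), add_zero]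
    · rw [hv1]
      rcases hw with rfl | hw
      · rw [hr1]
        have := (hA hv).2.2
        omega
      · have := (hA hw).2.2
        omega
  rw [hconst, hbot] at htop
  exact absurd htop (by decide)

end Pool.Agent.H98.P2
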