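import Pool.Agent.H98.P2.Ext

/-!
# Module Rec: the recursion `f(2n+1) ≤ 25 f(n)²`

`strip`: the horizontal crossing of `[0, 8n+4] × [0,n]` fails with probability `≤ 5 f(n)`: horizontal crossings of `[0,4n]`, `[3n,7n]`, `[5n,9n]` (times `[0,n]`) and
vertical crossings of `[3n,4n] × [0,4n]` and of `[5n,6n] × [0,4n]` (translates of `[0,n] × [0,4n]`, which fails with probability `f(n)` by `fl_VC`); `hc_glue` for
`[0,7n]`: overlap `[3n,4n]`; for `[0,9n]`: overlap `[5n,7n]`, where the vertical crossing of `[5n,6n] × [0,4n]` is also one of `[5n,7n] × [0,4n]` (`Cn.mono`);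
`hc_short`, `8n+4 ≤ 9n`.
`rec`: `HC κ 0 (8n+4) 0 (2n+1)` holds if the lower strip `[0,8n+4] × [0,n]` or the upper strip `[0,8n+4] × [n+1,2n+1]` is crossed (`Cn.mono`). The two events are
independent: `on_HC`, `ef_disj`, `mu_indep` (`mu_const`) for the complements (measurable: local). The upper strip is a translate of the lower one.
`4 * (2n+1) = 8n+4`.
-/

set_option autoImplicit false

open MeasureTheory Filter Topology
open Pool.Agent.H17.IIC Pool.Agent.H41.QC Pool.Agent.H47.GM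

namespace Pool.Agent.H98.P2

variable {κ : Kind} {p : unitInterval}

private lemma fl_H4 (κ : Kind) (p : unitInterval) (n : ℕ) (x : ℤ) :
    Fl p (HC κ x (4 * n + x) 0 n) = ff κ p n := by
  have h := fl_HC_shift κ p 0 (4 * n) 0 n x 0
  rw [zero_add, add_zero, add_zero] at h
  exact h

private lemma fl_V4 (κ : Kind) (p : unitInterval) (n : ℕ) (x : ℤ) :
    Fl p (VC κ x (n + x) 0 (4 * n)) = ff κ p n := by
  have h := fl_VC_shift κ p 0 n 0 (4 * n) x 0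
  rw [zero_add, add_zero, add_zero, fl_VC κ p 0 n 0 (4 * n)] at h
  exact h

theorem strip (κ : Kind) (p : unitInterval) {n : ℕ} (hn : 4 ≤ n) :
    Fl p (HC κ 0 (8 * n + 4) 0 n) ≤ 5 * ff κ p n := by
  have hn' : (4 : ℤ) ≤ (n : ℤ) := by exact_mod_cast hn
  have E1 : Fl p (HC κ 0 (4 * n) 0 n) = ff κ p n := rfl
  have E2 := fl_H4 κ p n (3 * n)
  have E3 := fl_H4 κ p n (5 * n)
  have V1 := fl_V4 κ p n (3 * n)
  have V2 := fl_V4 κ p n (5 * n)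
  have s1 := fl_two (p := p) (E₁ := VC κ (3 * n) (n + 3 * n) 0 (4 * n)) (E₂ := VC κ (5 * n) (n + 5 * n) 0 (4 * n))
    (E := fun ω => VC κ (3 * n) (n + 3 * n) 0 (4 * n) ω ∧ VC κ (5 * n) (n + 5 * n) 0 (4 * n) ω)
    (fun ω a b => ⟨a, b⟩)
  have s2 := fl_two (p := p) (E₁ := HC κ (5 * n) (4 * n + 5 * n) 0 n)
    (E₂ := fun ω => VC κ (3 * n) (n + 3 * n) 0 (4 * n) ω ∧ VC κ (5 * n) (n + 5 * n) 0 (4 * n) ω)
    (E := fun ω => HC κ (5 * n) (4 * n + 5 * n) 0 n ω ∧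
      VC κ (3 * n) (n + 3 * n) 0 (4 * n) ω ∧ VC κ (5 * n) (n + 5 * n) 0 (4 * n) ω)
    (fun ω a b => ⟨a, b⟩)
  have s3 := fl_two (p := p) (E₁ := HC κ (3 * n) (4 * n + 3 * n) 0 n)
    (E₂ := fun ω => HC κ (5 * n) (4 * n + 5 * n) 0 n ω ∧
      VC κ (3 * n) (n + 3 * n) 0 (4 * n) ω ∧ VC κ (5 * n) (n + 5 * n) 0 (4 * n) ω)
    (E := fun ω => HC κ (3 * n) (4 * n + 3 * n) 0 n ω ∧ HC κ (5 * n) (4 * n + 5 * n) 0 n ω ∧
      VC κ (3 * n) (n + 3 * n) 0 (4 * n) ω ∧ VC κ (5 * n) (n + 5 * n) 0 (4 * n) ω)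
    (fun ω a b => ⟨a, b⟩)
  have s4 := fl_two (p := p) (E₁ := HC κ 0 (4 * n) 0 n)
    (E₂ := fun ω => HC κ (3 * n) (4 * n + 3 * n) 0 n ω ∧ HC κ (5 * n) (4 * n + 5 * n) 0 n ω ∧
      VC κ (3 * n) (n + 3 * n) 0 (4 * n) ω ∧ VC κ (5 * n) (n + 5 * n) 0 (4 * n) ω)
    (E := HC κ 0 (8 * n + 4) 0 n) (by
      rintro ω h1 ⟨h2, h3, h4, h5⟩
      have g1 : HC κ 0 (4 * n + 3 * n) 0 n ω := by
        refine hc_glue (a' := 3 * n) (b := 4 * n) (e' := 4 * n) (by omega) (by omega) (by omega) (by omega) (by omega) h1 h2 ?_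
        have e1 : (n : ℤ) + 3 * n = 4 * n := by ring
        rwa [e1] at h4
      have g2 : VC κ (5 * n) (4 * n + 3 * n) 0 (4 * n) ω := by
        obtain ⟨u, v, hu, hv, hu1, hv1, hc⟩ := h5
        have hs : Rc (5 * n) (n + 5 * n) 0 (4 * n) ⊆ Rc (5 * n) (4 * n + 3 * n) 0 (4 * n) :=
          Rc_mono le_rfl (by omega) le_rfl le_rfl
        exact ⟨u, v, hs hu, hs hv, hu1, hv1, hc.mono hs⟩
      have g3 : HC κ 0 (4 * n + 5 * n) 0 n ω :=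
        hc_glue (a' := 5 * n) (b := 4 * n + 3 * n) (e' := 4 * n) (by omega) (by omega) (by omega) (by omega) (by omega) g1 h3 g2
      exact hc_short (by omega) (by omega) g3)
  linarith

theorem rec_ff (κ : Kind) (p : unitInterval) {n : ℕ} (hn : 4 ≤ n) :
    ff κ p (2 * n + 1) ≤ (5 * ff κ p n) ^ 2 := by
  have hn' : (4 : ℤ) ≤ (n : ℤ) := by exact_mod_cast hn
  have hs := strip κ p hn
  have hup : Fl p (HC κ 0 (8 * n + 4) (n + 1) (2 * n + 1)) = Fl p (HC κ 0 (8 * n + 4) 0 n) := by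
    have h := fl_HC_shift κ p 0 (8 * n + 4) 0 n 0 (n + 1)
    have e1 : (n : ℤ) + (n + 1) = 2 * n + 1 := by ring
    rw [add_zero, add_zero, zero_add, e1] at h
    exact h
  have hsub : {ω | ¬ HC κ 0 (4 * ((2 * n + 1 : ℕ) : ℤ)) 0 ((2 * n + 1 : ℕ) : ℤ) ω} ⊆
      {ω | ¬ HC κ 0 (8 * n + 4) 0 n ω} ∩ {ω | ¬ HC κ 0 (8 * n + 4) (n + 1) (2 * n + 1) ω} := by
    have e4 : (4 : ℤ) * ((2 * n + 1 : ℕ) : ℤ) = 8 * n + 4 := by push_cast; ring
    have e1 : ((2 * n + 1 : ℕ) : ℤ) = 2 * n + 1 := by push_cast; ring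
    rw [e4, e1]
    intro ω hω
    refine ⟨fun h => hω ?_, fun h => hω ?_⟩
    · obtain ⟨u, v, hu, hv, hu1, hv1, hc⟩ := h
      have hs : Rc 0 (8 * n + 4) 0 n ⊆ Rc 0 (8 * n + 4) 0 (2 * n + 1) := Rc_mono le_rfl le_rfl le_rfl (by omega)
      exact ⟨u, v, hs hu, hs hv, hu1, hv1, hc.mono hs⟩
    · obtain ⟨u, v, hu, hv, hu1, hv1, hc⟩ := h
      have hs : Rc 0 (8 * n + 4) (n + 1) (2 * n + 1) ⊆ Rc 0 (8 * n + 4) 0 (2 * n + 1) :=
        Rc_mono le_rfl le_rfl (by omega) le_rfl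
      exact ⟨u, v, hs hu, hs hv, hu1, hv1, hc.mono hs⟩
  have hon : ∀ c e : ℤ, On (Ef 0 (8 * n + 4) c e : Set (El 2)) {ω | ¬ HC κ 0 (8 * n + 4) c e ω} :=
    fun c e ω ω' h => not_congr (on_HC κ 0 (8 * n + 4) c e ω ω' h)
  have hdisj : (Ef 0 (8 * n + 4) (n + 1) (2 * n + 1) : Set (El 2)) ⊆ (Ef 0 (8 * n + 4) 0 n : Set (El 2))ᶜ := by
    rw [Set.subset_compl_iff_disjoint_left]
    exact ef_disj (by omega)
  have hind := mu_indep (fun _ : El 2 => p) (Ef 0 (8 * n + 4) 0 n : Set (El 2))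
    (A := {ω | ¬ HC κ 0 (8 * n + 4) 0 n ω}) (B := {ω | ¬ HC κ 0 (8 * n + 4) (n + 1) (2 * n + 1) ω})
    (hon 0 n).measurableSet (hon (n + 1) (2 * n + 1)).measurableSet (hon 0 n) ((hon (n + 1) (2 * n + 1)).mono hdisj)
  rw [mu_const] at hind
  have h1 : ff κ p (2 * n + 1) ≤ Fl p (HC κ 0 (8 * n + 4) 0 n) * Fl p (HC κ 0 (8 * n + 4) (n + 1) (2 * n + 1)) := by
    unfold ff Fl
    rw [← hind]
    exact measureReal_mono hsub (measure_ne_top _ _)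
  rw [hup] at h1
  have h0 := fl_nonneg p (HC κ 0 (8 * n + 4) 0 n)
  calc ff κ p (2 * n + 1) ≤ Fl p (HC κ 0 (8 * n + 4) 0 n) * Fl p (HC κ 0 (8 * n + 4) 0 n) := h1
    _ ≤ (5 * ff κ p n) * (5 * ff κ p n) := mul_le_mul hs hs h0 (h0.trans hs)
    _ = (5 * ff κ p n) ^ 2 := by ring

end Pool.Agent.H98.P2
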