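import Pool.Agent.H98.P2.Win

/-!
# Module WideD: gluing two windows through the X event (deterministic)

Let `B = Rc (-n) n (-n) n`. `XX` gives `r₁, r₂` on the right side with heights `≥ α`, `≤ -α`, connected in `B`, and `l₁, l₂` on the left side. The path
of `h1` starts at `u 0 = n - 2 N ≤ - n` and ends at `w 0 = n` with `-α ≤ w 1 ≤ α`: by `win_right` (with `D₁ = Rc (n-2N) n (-α-N) (N-α)`, `D₂ = B`,
`l = -n`, `r = n`, `p = r₂`, `q = r₁`, common vertical bounds `-α-N` and `2n-α`: `N ≤ 2n`, `α ≤ n ≤ N`) it meets a point connected to `r₂` in `B`. The path of `h2`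
starts at `u' 0 = 2 N - n ≥ n` and ends in the left window: `win_left` with `p = l₂`, `q = l₁`. All sets are contained in
`Rc (n-2N) (2N-n) (-α-N) (2n-α)`, so `u` and `u'` are connected there: a horizontal crossing (`Cn.mono`, `Rc_mono`).
-/

set_option autoImplicit false

open MeasureTheory Filter Topology
open Pool.Agent.H17.IIC Pool.Agent.H41.QC Pool.Agent.H47.GM

namespace Pool.Agent.H98.P2

variable {κ : Kind} {ω : El 2 → Bool}

theorem wideD {n N α : ℕ} (hnN : n ≤ N) (hN : N ≤ 2 * n) (hα : α ≤ n) (hX : XX κ n α ω)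
    (h1 : HG κ (n - 2 * N) n (-α - N) (N - α) (-α) α ω)
    (h2 : HL κ (-n) (2 * N - n) (-α - N) (N - α) (-α) α ω) :
    HC κ (n - 2 * N) (2 * N - n) (-α - N) (2 * n - α) ω := by
  obtain ⟨r₁, r₂, l₁, l₂, ⟨m1, m2, m3, m4⟩, ⟨e1, b1⟩, ⟨e2, b2⟩, ⟨e3, b3⟩, ⟨e4, b4⟩, c1, c2, c3⟩ := hX
  obtain ⟨u, w, hu, hw, hu0, hw0, hws, hwt, hc⟩ := h1
  obtain ⟨u', w', hu', hw', hu0', hw0', hws', hwt', hc'⟩ := h2
  have a1 : (n : ℤ) ≤ N := by exact_mod_cast hnN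
  have a2 : (N : ℤ) ≤ 2 * n := by exact_mod_cast hN
  have a3 : (α : ℤ) ≤ n := by exact_mod_cast hα
  have a4 : (0 : ℤ) ≤ α := Int.natCast_nonneg α
  have hB : ∀ z ∈ Rc (-(n : ℤ)) n (-n) n, -(n : ℤ) ≤ z 0 ∧ z 0 ≤ n ∧ (-α - N : ℤ) ≤ z 1 ∧ z 1 ≤ 2 * n - α := by
    rintro z ⟨⟨z1, z2⟩, z3, z4⟩
    exact ⟨z1, z2, by linarith, by linarith⟩
  obtain ⟨z, hz, k1, k2⟩ := win_right (D₁ := Rc (n - 2 * N) n (-α - N) (N - α)) (D₂ := Rc (-n) n (-n) n)
    (l := -n) (r := n) (c := -α - N) (e := 2 * n - α) hc hu (by rw [hu0]; linarith) hw0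
    (by rintro z ⟨⟨z1, z2⟩, z3, z4⟩; exact ⟨z2, z3, by linarith⟩)
    c1.symm m2 e2 e1 (b2.trans hws) (hwt.trans b1) hB
  obtain ⟨z', hz', k1', k2'⟩ := win_left (D₁ := Rc (-n) (2 * N - n) (-α - N) (N - α)) (D₂ := Rc (-n) n (-n) n)
    (l := -n) (r := n) (c := -α - N) (e := 2 * n - α) hc' hu' (by rw [hu0']; linarith) hw0'
    (by rintro z ⟨⟨z1, z2⟩, z3, z4⟩; exact ⟨z1, z3, by linarith⟩)
    (c3.symm.trans c2) m4 e4 e3 (b4.trans hws') (hwt'.trans b3) hB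
  have s1 : Rc (n - 2 * N) n (-α - N) (N - α) ⊆ Rc (n - 2 * N) (2 * N - n) (-α - N) (2 * n - α) :=
    Rc_mono le_rfl (by linarith) le_rfl (by linarith)
  have s2 : Rc (-n) (2 * N - n) (-α - N) (N - α) ⊆ Rc (n - 2 * N) (2 * N - n) (-α - N) (2 * n - α) :=
    Rc_mono (by linarith) le_rfl le_rfl (by linarith)
  have s3 : Rc (-(n : ℤ)) n (-n) n ⊆ Rc (n - 2 * N) (2 * N - n) (-α - N) (2 * n - α) :=
    Rc_mono (by linarith) (by linarith) (by linarith) (by linarith)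
  refine ⟨u, u', s1 hu, s2 hu', hu0, hu0', ?_⟩
  have t1 := k1.mono s1
  have t2 := (k2.symm.trans (c1.symm.trans (c3.trans k2'))).mono s3
  have t3 := k1'.symm.mono s2
  exact t1.trans (t2.trans t3)

end Pool.Agent.H98.P2
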