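import Pool.Agent.H98.P2.Plan
import Pool.Agent.H98.P2.Sub

/-!
# Module Win: a path which enters a window meets an arc around the window

`win_right`: if `w 1 = q 1` or `w 1 = p 1` then `w = q` or `w = p` and `z = w` works. Otherwise `p 1 < w 1 < q 1`. By `cn_suf` (coordinate `0`,
level `l`) there is `x' ∈ D₁` with `x' 0 = l` and a path from `x'` to `w` in `D₁ ∩ {l ≤ z 0}`; `Cn κ ω D₁ u x'` because both are connected to
`w`. Apply `planar` in the rectangle `[l, r+1] × [c, e]` (note `p, q, w ∈ D₁ ∪ D₂` have heights in `[c,e]`) with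
`A = {z ∈ D₁ | l ≤ z 0, Cn κ ω D₁ u z} ∪ {(r+1, w 1)}` and
`B = {z ∈ D₂ | Cn κ ω D₂ p z} ∪ {(r+1, y) | c ≤ y ≤ p 1} ∪ {(r+1, y) | q 1 ≤ y ≤ e}`: the path in `B` goes up the column `r+1` from `c` to `p 1`, to `p`,
along the given path to `q`, to `(r+1, q 1)` and up to `e`. A common point is in `D₁ ∩ D₂` (the points of `D₁`, `D₂` have `z 0 ≤ r`; `w 1` is neither
`≤ p 1` nor `≥ q 1`). `win_left`: reflection `φ = sperm 1 τ` (`z ↦ (- z 0, z 1)`, `isAut_sperm`, `cn_tr`) or the same proof.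
-/

set_option autoImplicit false

open MeasureTheory Filter Topology
open Pool.Agent.H17.IIC Pool.Agent.H41.QC Pool.Agent.H47.GM

namespace Pool.Agent.H98.P2

variable {κ : Kind} {ω : El 2 → Bool}

private lemma win_v2 (z : V 2) (a b : ℤ) (h0 : z 0 = a) (h1 : z 1 = b) : z = ![a, b] := by
  funext i
  fin_cases i
  · exact h0
  · exact h1

private lemma win_right_step (a b : ℤ) : LatAdj (![a, b] : V 2) ![a + 1, b] := by
  refine ⟨(0, true), ?_⟩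
  funext i
  fin_cases i <;> simp [stepVec]

private lemma win_left_step (a b : ℤ) : LatAdj (![a + 1, b] : V 2) ![a, b] := by
  refine ⟨(0, false), ?_⟩
  funext i
  fin_cases i <;> simp [stepVec]

private lemma win_up_step (a b : ℤ) : LatAdj (![a, b] : V 2) ![a, b + 1] := by
  refine ⟨(1, true), ?_⟩
  funext i
  fin_cases i <;> simp [stepVec]

/-- a column -/
private lemma win_col (S : Set (V 2)) (a s : ℤ) (n : ℕ)
    (h : ∀ t : ℤ, s ≤ t → t ≤ s + n → (![a, t] : V 2) ∈ S) : LP S ![a, s] ![a, s + n] := by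
  induction n with
  | zero =>
    simp only [Nat.cast_zero, add_zero]
    exact Relation.ReflTransGen.refl
  | succ n ih =>
    have h1 := ih (fun t h2 h3 => h t h2 (by push_cast; linarith))
    refine Relation.ReflTransGen.tail h1 ⟨?_, ?_, ?_⟩
    · have := win_up_step a (s + n)
      have he : s + ((n + 1 : ℕ) : ℤ) = s + n + 1 := by push_cast; ring
      rw [he]
      exact this
    · exact h _ (by linarith [Int.natCast_nonneg n]) (by push_cast; linarith)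
    · exact h _ (by push_cast; linarith [Int.natCast_nonneg n]) le_rfl

private lemma win_col' (S : Set (V 2)) (a s s' : ℤ) (hs : s ≤ s')
    (h : ∀ t : ℤ, s ≤ t → t ≤ s' → (![a, t] : V 2) ∈ S) : LP S ![a, s] ![a, s'] := by
  obtain ⟨n, hn⟩ := Int.le.dest hs
  subst hn
  exact win_col S a s n h

private lemma win_lp {D S : Set (V 2)} {x y : V 2} (h : Cn κ ω D x y) (hS : D ⊆ S) :
    LP S x y := by
  refine Relation.ReflTransGen.mono (fun a b hs => ?_) _ _ h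
  exact ⟨hs.lat, hS hs.2.1, hS hs.2.2⟩

theorem win_right {D₁ D₂ : Set (V 2)} {u w p q : V 2} {l r c e : ℤ}
    (h1 : Cn κ ω D₁ u w) (hu : u ∈ D₁) (hul : u 0 ≤ l) (hw : w 0 = r)
    (hD₁ : ∀ z ∈ D₁, z 0 ≤ r ∧ c ≤ z 1 ∧ z 1 ≤ e)
    (h2 : Cn κ ω D₂ p q) (hp : p ∈ D₂) (hp0 : p 0 = r) (hq0 : q 0 = r) (hpw : p 1 ≤ w 1) (hwq : w 1 ≤ q 1)
    (hD₂ : ∀ z ∈ D₂, l ≤ z 0 ∧ z 0 ≤ r ∧ c ≤ z 1 ∧ z 1 ≤ e) :
    ∃ z ∈ D₁ ∩ D₂, Cn κ ω D₁ u z ∧ Cn κ ω D₂ p z := by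
  have hwD : w ∈ D₁ := h1.mem_right hu
  have hqD : q ∈ D₂ := h2.mem_right hp
  rcases eq_or_lt_of_le hpw with hpw | hpw
  · have hwp : w = p := (win_v2 w r (w 1) hw rfl).trans (win_v2 p r (w 1) hp0 hpw).symm
    exact ⟨w, ⟨hwD, by rw [hwp]; exact hp⟩, h1, by rw [hwp]; exact Cn.refl p⟩
  rcases eq_or_lt_of_le hwq with hwq | hwq
  · have hwp : w = q := (win_v2 w r (q 1) hw hwq).trans (win_v2 q r (q 1) hq0 rfl).symm
    exact ⟨w, ⟨hwD, by rw [hwp]; exact hqD⟩, h1, by rw [hwp]; exact h2⟩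
  have hlr : l ≤ r := by have := hD₂ p hp; rw [hp0] at this; exact this.1
  obtain ⟨x', hx'D, hx'0, hx'⟩ := cn_suf (0 : Fin 2) hu h1 hul (by rw [hw]; exact hlr)
  have hux : Cn κ ω D₁ u x' := h1.trans (hx'.mono Set.inter_subset_left).symm
  set A : Set (V 2) := {z | z ∈ D₁ ∧ l ≤ z 0 ∧ Cn κ ω D₁ u z} ∪ {![r + 1, w 1]} with hA
  set B : Set (V 2) := {z | z ∈ D₂ ∧ Cn κ ω D₂ p z} ∪
    ({z | z 0 = r + 1 ∧ c ≤ z 1 ∧ z 1 ≤ p 1} ∪ {z | z 0 = r + 1 ∧ q 1 ≤ z 1 ∧ z 1 ≤ e}) with hB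
  have hwb := hD₁ w hwD
  have hpb := hD₂ p hp
  have hqb := hD₂ q hqD
  have hAR : A ⊆ Rc l (r + 1) c e := by
    rintro z (⟨hz1, hz2, -⟩ | hz)
    · have := hD₁ z hz1
      exact ⟨⟨hz2, by linarith [this.1]⟩, this.2⟩
    · rw [Set.mem_singleton_iff] at hz
      subst hz
      refine ⟨⟨?_, ?_⟩, ?_, ?_⟩ <;> simp <;> linarith [hwb.2.1, hwb.2.2]
  have hBR : B ⊆ Rc l (r + 1) c e := by
    rintro z (⟨hz1, -⟩ | ⟨hz1, hz2, hz3⟩ | ⟨hz1, hz2, hz3⟩)
    · have := hD₂ z hz1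
      exact ⟨⟨this.1, by linarith [this.2.1]⟩, this.2.2⟩
    · exact ⟨⟨by rw [hz1]; linarith, by rw [hz1]⟩, hz2, by linarith [hpb.2.2.2]⟩
    · exact ⟨⟨by rw [hz1]; linarith, by rw [hz1]⟩, by linarith [hqb.2.2.1], hz3⟩
  have hPA : LP A x' ![r + 1, w 1] := by
    have h3 : LP A x' w := by
      refine win_lp hx'.cluster ?_
      rintro z ⟨⟨hz1, hz2⟩, hz3⟩
      exact Or.inl ⟨hz1, hz2, hux.trans (hz3.mono Set.inter_subset_left)⟩
    refine Relation.ReflTransGen.tail h3 ⟨?_, ?_, ?_⟩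
    · conv_lhs => rw [win_v2 w r (w 1) hw rfl]
      exact win_right_step r (w 1)
    · exact Or.inl ⟨hwD, by rw [hw]; exact hlr, h1⟩
    · exact Or.inr rfl
  have hPB : LP B ![r + 1, c] ![r + 1, e] := by
    have h3 : LP B ![r + 1, c] ![r + 1, p 1] := by
      refine win_col' B _ _ _ hpb.2.2.1 (fun t ht1 ht2 => ?_)
      exact Or.inr (Or.inl ⟨by simp, by simpa using ht1, by simpa using ht2⟩)
    have h4 : LP B p q := by
      refine win_lp h2.cluster ?_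
      rintro z ⟨hz1, hz2⟩
      exact Or.inl ⟨hz1, hz2⟩
    have h5 : LP B ![r + 1, q 1] ![r + 1, e] := by
      refine win_col' B _ _ _ hqb.2.2.2 (fun t ht1 ht2 => ?_)
      exact Or.inr (Or.inr ⟨by simp, by simpa using ht1, by simpa using ht2⟩)
    have h6 : LP B ![r + 1, p 1] p := by
      refine Relation.ReflTransGen.single ⟨?_, ?_, ?_⟩
      · conv_rhs => rw [win_v2 p r (p 1) hp0 rfl]
        exact win_left_step r (p 1)
      · exact Or.inr (Or.inl ⟨by simp, by simpa using hpb.2.2.1, by simp⟩)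
      · exact Or.inl ⟨hp, Cn.refl p⟩
    have h7 : LP B q ![r + 1, q 1] := by
      refine Relation.ReflTransGen.single ⟨?_, ?_, ?_⟩
      · conv_lhs => rw [win_v2 q r (q 1) hq0 rfl]
        exact win_right_step r (q 1)
      · exact Or.inl ⟨hqD, h2⟩
      · exact Or.inr (Or.inr ⟨by simp, by simp, by simpa using hqb.2.2.2⟩)
    exact (((h3.trans h6).trans h4).trans h7).trans h5
  have hx'A : x' ∈ A := Or.inl ⟨hx'D, by rw [hx'0], hux⟩
  have hcB : (![r + 1, c] : V 2) ∈ B :=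
    Or.inr (Or.inl ⟨by simp, by simp, by simpa using hpb.2.2.1⟩)
  obtain ⟨z, hzA, hzB⟩ := planar hAR hBR hx'A hx'0 (by simp) hPA hcB (by simp) (by simp) hPB
  rcases hzA with ⟨hz1, hz2, hz3⟩ | hz
  · have hzr := (hD₁ z hz1).1
    rcases hzB with ⟨hz4, hz5⟩ | ⟨hz4, -⟩ | ⟨hz4, -⟩
    · exact ⟨z, ⟨hz1, hz4⟩, hz3, hz5⟩
    · exfalso; linarith
    · exfalso; linarith
  · exfalso
    rw [Set.mem_singleton_iff] at hz
    subst hz
    rcases hzB with ⟨hz4, -⟩ | ⟨-, -, hz4⟩ | ⟨-, hz4, -⟩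
    · have := (hD₂ _ hz4).2.1
      simp at this
    · simp at hz4
      linarith
    · simp at hz4
      linarith

private def wt : Fin 2 → Bool := fun i => if i = 0 then false else true

private lemma win_phi0 (z : V 2) : sperm 1 wt z 0 = -z 0 := by
  simp [sperm, wt, sg]

private lemma win_phi1 (z : V 2) : sperm 1 wt z 1 = z 1 := by
  simp [sperm, wt, sg]

private lemma win_invol (z : V 2) : sperm 1 wt (sperm 1 wt z) = z := by
  funext i
  fin_cases i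
  · show sperm 1 wt (sperm 1 wt z) 0 = z 0
    rw [win_phi0, win_phi0, neg_neg]
  · show sperm 1 wt (sperm 1 wt z) 1 = z 1
    rw [win_phi1, win_phi1]

private lemma win_image (D : Set (V 2)) : sperm 1 wt '' (sperm 1 wt '' D) = D := by
  rw [Set.image_image]
  simp only [win_invol, Set.image_id']

private lemma win_cn {D : Set (V 2)} {x y : V 2} :
    Cn κ (tr (sperm 1 wt) ω) (sperm 1 wt '' D) (sperm 1 wt x) (sperm 1 wt y) ↔ Cn κ ω D x y := by
  rw [cn_tr (isAut_sperm 1 wt), win_image, win_invol, win_invol]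

theorem win_left {D₁ D₂ : Set (V 2)} {u w p q : V 2} {l r c e : ℤ}
    (h1 : Cn κ ω D₁ u w) (hu : u ∈ D₁) (hur : r ≤ u 0) (hw : w 0 = l)
    (hD₁ : ∀ z ∈ D₁, l ≤ z 0 ∧ c ≤ z 1 ∧ z 1 ≤ e)
    (h2 : Cn κ ω D₂ p q) (hp : p ∈ D₂) (hp0 : p 0 = l) (hq0 : q 0 = l) (hpw : p 1 ≤ w 1) (hwq : w 1 ≤ q 1)
    (hD₂ : ∀ z ∈ D₂, l ≤ z 0 ∧ z 0 ≤ r ∧ c ≤ z 1 ∧ z 1 ≤ e) :
    ∃ z ∈ D₁ ∩ D₂, Cn κ ω D₁ u z ∧ Cn κ ω D₂ p z := by
  obtain ⟨z, ⟨hz1, hz2⟩, hz3, hz4⟩ := win_right (κ := κ) (ω := tr (sperm 1 wt) ω)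
    (D₁ := sperm 1 wt '' D₁) (D₂ := sperm 1 wt '' D₂) (u := sperm 1 wt u) (w := sperm 1 wt w)
    (p := sperm 1 wt p) (q := sperm 1 wt q) (l := -r) (r := -l) (c := c) (e := e)
    (win_cn.2 h1) ⟨u, hu, rfl⟩ (by rw [win_phi0]; linarith) (by rw [win_phi0, hw])
    (by
      rintro _ ⟨z, hz, rfl⟩
      rw [win_phi0, win_phi1]
      have := hD₁ z hz
      exact ⟨by linarith [this.1], this.2⟩)
    (win_cn.2 h2) ⟨p, hp, rfl⟩ (by rw [win_phi0, hp0]) (by rw [win_phi0, hq0])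
    (by rw [win_phi1, win_phi1]; exact hpw) (by rw [win_phi1, win_phi1]; exact hwq)
    (by
      rintro _ ⟨z, hz, rfl⟩
      rw [win_phi0, win_phi1]
      have := hD₂ z hz
      exact ⟨by linarith [this.2.1], by linarith [this.1], this.2.2⟩)
  obtain ⟨z1, hz1', rfl⟩ := hz1
  obtain ⟨z2, hz2', hz2e⟩ := hz2
  have hzz : z2 = z1 := (sperm 1 wt).injective hz2e
  subst hzz
  exact ⟨z2, ⟨hz1', hz2'⟩, win_cn.1 hz3, win_cn.1 hz4⟩

end Pool.Agent.H98.P2
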